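import Pool.Agent.W27.TQ.Pow
import Pool.Agent.W27.TP.Main

/-! Bilinear sums over an arbitrary set and a set nearly invariant under an arithmetic
progression. -/

set_option autoImplicit false

open Finset
open scoped Pointwise

namespace Pool.Agent.W27.TQ

open Pool.Agent.W27.TP Pool.Agent.W27.BG Pool.Agent.W27.SD

/-- the arithmetic progression `0, v, 2v, ..., (N-1)v` -/
def AP {p : ℕ} (v : ZMod p) (N : ℕ) : Finset (ZMod p) := (range N).image (fun j : ℕ => (j : ZMod p) * v)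

theorem AP_card {p : ℕ} [Fact p.Prime] (v : ZMod p) (hv : v ≠ 0) (N : ℕ) (hN : N ≤ p) :
    (AP v N).card = N := by
  unfold AP
  rw [Finset.card_image_of_injOn, Finset.card_range]
  intro i hi j hj hij
  rw [Finset.coe_range, Set.mem_Iio] at hi hj
  simp only at hij
  have h := mul_right_cancel₀ hv hij
  rw [ZMod.natCast_eq_natCast_iff'] at h
  rwa [Nat.mod_eq_of_lt (hi.trans_le hN), Nat.mod_eq_of_lt (hj.trans_le hN)] at h

theorem AP_mono {p : ℕ} (v : ZMod p) {N N' : ℕ} (h : N' ≤ N) : AP v N' ⊆ AP v N :=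
  Finset.image_subset_image (Finset.range_subset_range.2 h)

/-- from mean to mean square bounds -/
theorem l2_of_l1 {p : ℕ} [Fact p.Prime] (χ : DirichletCharacter ℂ p) (A Y : Finset (ZMod p))
    (α β : ZMod p → ℂ) (hα : ∀ a, ‖α a‖ ≤ 1) (δ : ℝ)
    (h : ∑ y ∈ Y, ‖∑ a ∈ A, α a * χ (a + y)‖ ≤ (p : ℝ) ^ (-(2 * δ)) * (A.card * Y.card)) :
    ‖∑ a ∈ A, ∑ y ∈ Y, α a * β y * χ (a + y)‖
      ≤ (p : ℝ) ^ (-δ) * (A.card * Real.sqrt (Y.card * ∑ y ∈ Y, ‖β y‖ ^ 2)) := by
  have hp0 : (0 : ℝ) < p := by exact_mod_cast (Fact.out : p.Prime).pos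
  set F' : ZMod p → ℂ := fun y => ∑ a ∈ A, α a * χ (a + y) with hF'
  have hF'le : ∀ y, ‖F' y‖ ≤ A.card := by
    intro y
    refine (norm_sum_le _ _).trans ?_
    calc ∑ a ∈ A, ‖α a * χ (a + y)‖ ≤ ∑ _a ∈ A, (1 : ℝ) := by
          refine Finset.sum_le_sum fun a _ => ?_
          rw [norm_mul]
          exact mul_le_one₀ (hα a) (norm_nonneg _) (DirichletCharacter.norm_le_one χ _)
      _ = A.card := by simp
  have e1 : ∑ a ∈ A, ∑ y ∈ Y, α a * β y * χ (a + y) = ∑ y ∈ Y, β y * F' y := by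
    rw [Finset.sum_comm]
    refine Finset.sum_congr rfl fun y _ => ?_
    rw [hF', Finset.mul_sum]
    refine Finset.sum_congr rfl fun a _ => ?_
    ring
  rw [e1]
  have h3 : ‖∑ y ∈ Y, β y * F' y‖ ≤ ∑ y ∈ Y, ‖β y‖ * ‖F' y‖ :=
    (norm_sum_le _ _).trans (Finset.sum_le_sum fun y _ => (norm_mul _ _).le)
  have h4 : (∑ y ∈ Y, ‖β y‖ * ‖F' y‖) ^ 2 ≤ (∑ y ∈ Y, ‖β y‖ ^ 2) * ∑ y ∈ Y, ‖F' y‖ ^ 2 :=
    Finset.sum_mul_sq_le_sq_mul_sq _ _ _
  have h5 : ∑ y ∈ Y, ‖F' y‖ ^ 2 ≤ A.card * ((p : ℝ) ^ (-(2 * δ)) * (A.card * Y.card)) := by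
    calc ∑ y ∈ Y, ‖F' y‖ ^ 2 ≤ ∑ y ∈ Y, A.card * ‖F' y‖ := by
          refine Finset.sum_le_sum fun y _ => ?_
          rw [sq]
          exact mul_le_mul_of_nonneg_right (hF'le y) (norm_nonneg _)
      _ = A.card * ∑ y ∈ Y, ‖F' y‖ := by rw [Finset.mul_sum]
      _ ≤ _ := mul_le_mul_of_nonneg_left h (Nat.cast_nonneg _)
  refine h3.trans ?_
  have hβ0 : 0 ≤ ∑ y ∈ Y, ‖β y‖ ^ 2 := Finset.sum_nonneg fun _ _ => by positivity
  refine le_of_sq_le_sq ?_ (by positivity)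
  refine h4.trans ?_
  rw [mul_pow, mul_pow, Real.sq_sqrt (by positivity)]
  have e2 : ((p : ℝ) ^ (-δ)) ^ 2 = (p : ℝ) ^ (-(2 * δ)) := by
    rw [← Real.rpow_natCast, ← Real.rpow_mul hp0.le]
    congr 1
    push_cast
    ring
  rw [e2]
  calc (∑ y ∈ Y, ‖β y‖ ^ 2) * ∑ y ∈ Y, ‖F' y‖ ^ 2
      ≤ (∑ y ∈ Y, ‖β y‖ ^ 2) * (A.card * ((p : ℝ) ^ (-(2 * δ)) * (A.card * Y.card))) :=
        mul_le_mul_of_nonneg_left h5 hβ0
    _ = _ := by ring

/-- reduction of a translate and dilate to an interval -/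
theorem shift_dilate {p : ℕ} [Fact p.Prime] (χ : DirichletCharacter ℂ p) (A : Finset (ZMod p))
    (α : ZMod p → ℂ) (v t : ZMod p) (hv : v ≠ 0) (x : ZMod p) :
    ‖∑ a ∈ A, α a * χ (a + (t + x * v))‖
      ≤ ‖∑ a ∈ A.image (fun a => (a + t) / v), α (a * v - t) * χ (a + x)‖ := by
  rw [Finset.sum_image]
  · have h1 : ∑ a ∈ A, α a * χ (a + (t + x * v))
        = χ v * ∑ a ∈ A, α ((a + t) / v * v - t) * χ ((a + t) / v + x) := by
      rw [Finset.mul_sum]
      refine Finset.sum_congr rfl fun a _ => ?_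
      have h2 : a + (t + x * v) = v * ((a + t) / v + x) := by
        field_simp
        ring
      have h3 : (a + t) / v * v - t = a := by
        field_simp
        ring
      rw [h2, map_mul, h3]
      ring
    rw [h1, norm_mul]
    exact mul_le_of_le_one_left (norm_nonneg _) (DirichletCharacter.norm_le_one χ v)
  · intro a _ b _ hab
    simp only at hab
    rw [div_left_inj' hv] at hab
    exact add_right_cancel hab

/-- the mean bound for sets nearly invariant under an arithmetic progression -/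
theorem ap_mean (ε : ℝ) (hε : 0 < ε) :
    ∃ δ : ℝ, 0 < δ ∧ ∃ P : ℕ, ∀ (p : ℕ) [Fact p.Prime], P ≤ p →
      ∀ (χ : DirichletCharacter ℂ p), χ ≠ 1 → ∀ N : ℕ, N ≤ p → (p : ℝ) ^ ε ≤ N →
        ∀ v : ZMod p, v ≠ 0 → ∀ A : Finset (ZMod p), (p : ℝ) ^ ε ≤ A.card →
          (p : ℝ) ^ (1 + ε) ≤ A.card * N * max (A.card : ℝ) N →
          ∀ Y : Finset (ZMod p), ((Y + AP v N).card : ℝ) ≤ (p : ℝ) ^ δ * Y.card →
          ∀ α : ZMod p → ℂ, (∀ a, ‖α a‖ ≤ 1) →
          ∑ y ∈ Y, ‖∑ a ∈ A, α a * χ (a + y)‖ ≤ (p : ℝ) ^ (-(2 * δ)) * (A.card * Y.card) := by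
  classical
  obtain ⟨e, hedef⟩ : ∃ e : ℝ, e = min ε 1 / 4 := ⟨_, rfl⟩
  have hmin0 : 0 < min ε 1 := lt_min hε one_pos
  have he0 : 0 < e := by rw [hedef]; positivity
  have heε : 4 * e ≤ ε := by
    have := min_le_left ε 1
    rw [hedef]; linarith
  have he1 : 4 * e ≤ 1 := by
    have := min_le_right ε 1
    rw [hedef]; linarith
  obtain ⟨η, hη, P, hP⟩ := line_pow e he0
  obtain ⟨P1, hP1⟩ := large_rpow e 4 he0
  refine ⟨η / 3, by positivity, P + P1 + 256, ?_⟩
  intro p _ hp χ hχ N hNp hN v hv A hA hAN Y hY α hα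
  have hP1' := hP1 p (by omega)
  have hp1' : (1 : ℝ) < p := by exact_mod_cast (Fact.out : p.Prime).one_lt
  have hp1 : (1 : ℝ) ≤ p := hp1'.le
  have hp0 : (0 : ℝ) < p := by linarith
  have hA0 : (0 : ℝ) < A.card := lt_of_lt_of_le (by positivity) hA
  -- the truncated length
  obtain ⟨N', hN'def⟩ : ∃ N' : ℕ, N' = min N (Nat.sqrt p) := ⟨_, rfl⟩
  have hN'N : N' ≤ N := by rw [hN'def]; exact min_le_left _ _
  have hN's : N' ≤ Nat.sqrt p := by rw [hN'def]; exact min_le_right _ _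
  have hs16 : 16 ≤ Nat.sqrt p := by
    rw [Nat.le_sqrt]
    omega
  have hss : Nat.sqrt p * Nat.sqrt p ≤ p := Nat.sqrt_le p
  have hN'16 : 16 * N' ≤ p := by
    calc 16 * N' ≤ Nat.sqrt p * Nat.sqrt p := Nat.mul_le_mul hs16 hN's
      _ ≤ p := hss
  have hsR : (p : ℝ) ^ (1 / 2 : ℝ) ≤ 2 * Nat.sqrt p := by
    rw [← Real.sqrt_eq_rpow]
    refine Real.sqrt_le_iff.2 ⟨by positivity, ?_⟩
    have h1 : p < (Nat.sqrt p + 1) * (Nat.sqrt p + 1) := Nat.lt_succ_sqrt p
    have h2 : (p : ℝ) < (Nat.sqrt p + 1) * (Nat.sqrt p + 1) := by exact_mod_cast h1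
    have h3 : (16 : ℝ) ≤ Nat.sqrt p := by exact_mod_cast hs16
    nlinarith
  have hN'e : (p : ℝ) ^ e ≤ N' := by
    rw [hN'def, Nat.cast_min]
    refine le_min ?_ ?_
    · exact (Real.rpow_le_rpow_of_exponent_le hp1 (by linarith)).trans hN
    · have h1 : (p : ℝ) ^ (2 * e) ≤ (p : ℝ) ^ (1 / 2 : ℝ) :=
        Real.rpow_le_rpow_of_exponent_le hp1 (by linarith)
      have h2 : (p : ℝ) ^ (2 * e) = (p : ℝ) ^ e * (p : ℝ) ^ e := by
        rw [← Real.rpow_add hp0]; congr 1; ring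
      rw [h2] at h1
      have h3 : 2 * (p : ℝ) ^ e ≤ (p : ℝ) ^ e * (p : ℝ) ^ e :=
        mul_le_mul_of_nonneg_right (by linarith) (by positivity)
      linarith
  have hN'0 : (0 : ℝ) < N' := lt_of_lt_of_le (by positivity) hN'e
  have hN'1 : 1 ≤ N' := by exact_mod_cast hN'0
  have hAN' : (p : ℝ) ^ (1 + e) ≤ A.card * N' * max (A.card : ℝ) N' := by
    rcases le_total N (Nat.sqrt p) with h | h
    · have : N' = N := by rw [hN'def]; exact min_eq_left h
      rw [this]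
      exact (Real.rpow_le_rpow_of_exponent_le hp1 (by linarith)).trans hAN
    · have h1 : N' = Nat.sqrt p := by rw [hN'def]; exact min_eq_right h
      have h2 : (p : ℝ) ≤ 4 * (N' * N') := by
        rw [← h1] at hsR
        have h3 : ((p : ℝ) ^ (1 / 2 : ℝ)) * ((p : ℝ) ^ (1 / 2 : ℝ)) = p := by
          rw [← Real.rpow_add hp0]
          norm_num
        calc (p : ℝ) = ((p : ℝ) ^ (1 / 2 : ℝ)) * ((p : ℝ) ^ (1 / 2 : ℝ)) := h3.symm
          _ ≤ (2 * N') * (2 * N') := mul_le_mul hsR hsR (by positivity) (by positivity)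
          _ = _ := by ring
      have h4 : (p : ℝ) ^ (1 + e) * (p : ℝ) ^ e ≤ (A.card * (N' * N')) * 4 := by
        calc (p : ℝ) ^ (1 + e) * (p : ℝ) ^ e = (p : ℝ) ^ (1 + 2 * e) := by
              rw [← Real.rpow_add hp0]; congr 1; ring
          _ ≤ (p : ℝ) ^ (ε + 1) := Real.rpow_le_rpow_of_exponent_le hp1 (by linarith)
          _ = (p : ℝ) ^ ε * p := by rw [Real.rpow_add hp0, Real.rpow_one]
          _ ≤ A.card * (4 * (N' * N')) := mul_le_mul hA h2 (by positivity) (by positivity)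
          _ = _ := by ring
      have h5 : (p : ℝ) ^ (1 + e) * 4 ≤ (A.card * (N' * N')) * 4 :=
        (mul_le_mul_of_nonneg_left hP1'.le (by positivity)).trans h4
      have h6 : (p : ℝ) ^ (1 + e) ≤ A.card * (N' * N') := le_of_mul_le_mul_right h5 (by norm_num)
      calc (p : ℝ) ^ (1 + e) ≤ A.card * (N' * N') := h6
        _ = A.card * N' * N' := by ring
        _ ≤ _ := mul_le_mul_of_nonneg_left (le_max_right _ _) (by positivity)
  -- covering
  have hIcard : (AP v N').card = N' := AP_card v hv N' (hN'N.trans hNp)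
  have hIne : (AP v N').Nonempty := by
    rw [← Finset.card_pos, hIcard]
    exact hN'1
  have hYI : ((Y + AP v N').card : ℝ) ≤ (p : ℝ) ^ (η / 3) * Y.card := by
    refine le_trans ?_ hY
    exact_mod_cast Finset.card_le_card (Finset.add_subset_add_left (AP_mono v hN'N))
  obtain ⟨F, hFA, hFcard, hFcov⟩ := Finset.ruzsa_covering_add (A := Y) (B := AP v N')
    (K := (p : ℝ) ^ (η / 3) * Y.card / (AP v N').card) hIne (by
      rw [div_mul_cancel₀ _ (by rw [hIcard]; exact hN'0.ne')]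
      exact hYI)
  have hFB : (F.card : ℝ) * N' ≤ (p : ℝ) ^ (η / 3) * Y.card := by
    rw [hIcard] at hFcard
    rwa [le_div_iff₀ hN'0] at hFcard
  have hYsub : Y ⊆ (F ×ˢ Icc (-(N' : ℤ)) N').image (fun q => q.1 + (q.2 : ZMod p) * v) := by
    intro y hy
    have h1 := hFcov hy
    rw [Finset.mem_add] at h1
    obtain ⟨t, ht, d, hd, e1⟩ := h1
    rw [Finset.mem_sub] at hd
    obtain ⟨b, hb, b', hb', e2⟩ := hd
    unfold AP at hb hb'
    rw [Finset.mem_image] at hb hb'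
    obtain ⟨j, hj, e3⟩ := hb
    obtain ⟨j', hj', e4⟩ := hb'
    rw [Finset.mem_range] at hj hj'
    rw [Finset.mem_image]
    refine ⟨(t, (j : ℤ) - (j' : ℤ)), ?_, ?_⟩
    · rw [Finset.mem_product, Finset.mem_Icc]
      refine ⟨ht, ?_, ?_⟩ <;> simp only <;> omega
    · simp only
      rw [← e1, ← e2, ← e3, ← e4]
      push_cast
      ring
  have hsum : ∑ y ∈ Y, ‖∑ a ∈ A, α a * χ (a + y)‖
      ≤ ∑ t ∈ F, ∑ x ∈ Icc (-(N' : ℤ)) N', ‖∑ a ∈ A, α a * χ (a + (t + (x : ZMod p) * v))‖ := by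
    calc ∑ y ∈ Y, ‖∑ a ∈ A, α a * χ (a + y)‖
        ≤ ∑ y ∈ (F ×ˢ Icc (-(N' : ℤ)) N').image (fun q => q.1 + (q.2 : ZMod p) * v),
          ‖∑ a ∈ A, α a * χ (a + y)‖ :=
          Finset.sum_le_sum_of_subset_of_nonneg hYsub (fun _ _ _ => norm_nonneg _)
      _ ≤ ∑ q ∈ F ×ˢ Icc (-(N' : ℤ)) N', ‖∑ a ∈ A, α a * χ (a + (q.1 + (q.2 : ZMod p) * v))‖ :=
          Finset.sum_image_le_of_nonneg
            (f := fun y => ‖∑ a ∈ A, α a * χ (a + y)‖) (fun _ _ => norm_nonneg _)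
      _ = _ := Finset.sum_product _ _ _
  refine hsum.trans ?_
  have hinner : ∀ t ∈ F, ∑ x ∈ Icc (-(N' : ℤ)) N',
      ‖∑ a ∈ A, α a * χ (a + (t + (x : ZMod p) * v))‖ ≤ (p : ℝ) ^ (-η) * (A.card * N') := by
    intro t _
    have hcard : (A.image (fun a => (a + t) / v)).card = A.card := by
      refine Finset.card_image_of_injOn ?_
      intro a _ b _ hab
      simp only at hab
      rw [div_left_inj' hv] at hab
      exact add_right_cancel hab
    have h1 := hP p (by omega) χ hχ N' hN'e hN'16 (A.image (fun a => (a + t) / v))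
      (fun a => α (a * v - t)) (fun a => hα _) (by
        rw [hcard]
        exact (Real.rpow_le_rpow_of_exponent_le hp1 (by linarith)).trans hA) (by
        rw [hcard]
        exact hAN')
    rw [hcard] at h1
    refine le_trans ?_ h1
    exact Finset.sum_le_sum fun x _ => shift_dilate χ A α v t hv (x : ZMod p)
  calc ∑ t ∈ F, ∑ x ∈ Icc (-(N' : ℤ)) N', ‖∑ a ∈ A, α a * χ (a + (t + (x : ZMod p) * v))‖
      ≤ ∑ _t ∈ F, (p : ℝ) ^ (-η) * (A.card * N') := Finset.sum_le_sum hinner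
    _ = (p : ℝ) ^ (-η) * A.card * (F.card * N') := by
        rw [Finset.sum_const, nsmul_eq_mul]
        ring
    _ ≤ (p : ℝ) ^ (-η) * A.card * ((p : ℝ) ^ (η / 3) * Y.card) :=
        mul_le_mul_of_nonneg_left hFB (by positivity)
    _ = ((p : ℝ) ^ (-η) * (p : ℝ) ^ (η / 3)) * (A.card * Y.card) := by ring
    _ = (p : ℝ) ^ (-(2 * (η / 3))) * (A.card * Y.card) := by
        rw [← Real.rpow_add hp0]
        congr 2
        ring

/-- below the square root for sets nearly invariant under a set of bounded doubling -/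
theorem below_root (ε K : ℝ) (hε : 0 < ε) :
    ∃ c : ℝ, 0 < c ∧ ∃ δ : ℝ, 0 < δ ∧ ∃ P : ℕ, ∀ (p : ℕ) [Fact p.Prime], P ≤ p →
      ∀ (χ : DirichletCharacter ℂ p), χ ≠ 1 → ∀ B : Finset (ZMod p), (p : ℝ) ^ ε ≤ B.card →
        ((B + B).card : ℝ) ≤ K * B.card → ∀ A : Finset (ZMod p),
        (p : ℝ) ^ (1 / 2 - c) ≤ A.card →
          ∀ Y : Finset (ZMod p), ((Y + B).card : ℝ) ≤ (p : ℝ) ^ δ * Y.card →
          ∀ α : ZMod p → ℂ, (∀ a, ‖α a‖ ≤ 1) →
          ∑ y ∈ Y, ‖∑ a ∈ A, α a * χ (a + y)‖ ≤ (p : ℝ) ^ (-(2 * δ)) * (A.card * Y.card) := by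
  classical
  obtain ⟨C, D, hC1, hD1, hgap⟩ := gap_all (K := max K 1) (le_max_right _ _)
  have hDR : (1 : ℝ) ≤ D := by exact_mod_cast hD1
  have hD0 : (0 : ℝ) < D := by linarith
  obtain ⟨e, hedef⟩ : ∃ e : ℝ, e = min ε 1 / (8 * D) := ⟨_, rfl⟩
  have hmin0 : 0 < min ε 1 := lt_min hε one_pos
  have he0 : 0 < e := by rw [hedef]; positivity
  have heD : 8 * e * D = min ε 1 := by rw [hedef]; field_simp
  have heDε : 8 * e * D ≤ ε := heD.le.trans (min_le_left _ _)
  have heD1 : 8 * e * D ≤ 1 := heD.le.trans (min_le_right _ _)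
  have he8 : 8 * e ≤ 1 := by
    have : 8 * e * 1 ≤ 8 * e * D := mul_le_mul_of_nonneg_left hDR (by positivity)
    linarith
  obtain ⟨δ, hδ, P0, hP0⟩ := ap_mean e he0
  obtain ⟨P1, hP1⟩ := large_rpow (4 * e * D) C (by positivity)
  obtain ⟨P2, hP2⟩ := large_rpow e 3 he0
  obtain ⟨P3, hP3⟩ := large_rpow (δ / 4) (C * C * (3 ^ D * C)) (by positivity)
  refine ⟨e, he0, δ / 4, by positivity, P0 + P1 + P2 + P3 + 3, ?_⟩
  intro p _ hp χ hχ B hB hBK A hA Y hY α hα
  have hP1' := hP1 p (by omega)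
  have hP2' := hP2 p (by omega)
  have hP3' := hP3 p (by omega)
  have hp3 : 3 ≤ p := by omega
  have hp1' : (1 : ℝ) < p := by exact_mod_cast (Fact.out : p.Prime).one_lt
  have hp1 : (1 : ℝ) ≤ p := hp1'.le
  have hp0 : (0 : ℝ) < p := by linarith
  have hB0 : (0 : ℝ) < B.card := lt_of_lt_of_le (by positivity) hB
  have hBne : B.Nonempty := by
    rw [← Finset.card_pos]
    exact_mod_cast hB0
  obtain ⟨k, v, R, T, hkD, hprop, hvol, hT, hcov⟩ := hgap p hp3 B hBne
    (hBK.trans (mul_le_mul_of_nonneg_right (le_max_left _ _) hB0.le))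
  have hBle : (B.card : ℝ) ≤ C * ∏ i, (2 * (R i : ℝ) + 1) := by
    have hsub : B ⊆ (T ×ˢ bx R).image (fun q => q.1 + lin v q.2) := by
      intro a ha
      obtain ⟨t, ht, c, hc, e⟩ := hcov a ha
      rw [Finset.mem_image]
      exact ⟨(t, c), Finset.mem_product.2 ⟨ht, mem_bx.2 hc⟩, e.symm⟩
    have h1 := (Finset.card_le_card hsub).trans Finset.card_image_le
    rw [Finset.card_product, card_bx] at h1
    have h2 : (B.card : ℝ) ≤ T.card * ∏ i, (2 * (R i : ℝ) + 1) := by exact_mod_cast h1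
    exact h2.trans (mul_le_mul_of_nonneg_right hT (Finset.prod_nonneg fun i _ => by positivity))
  -- a long side
  obtain ⟨m, hm⟩ : ∃ m : Fin k, (p : ℝ) ^ (3 * e) ≤ R m := by
    by_contra hcon
    push Not at hcon
    have h1 : ∀ i : Fin k, 2 * (R i : ℝ) + 1 ≤ (p : ℝ) ^ (4 * e) := by
      intro i
      have h2 := hcon i
      have h3 : (1 : ℝ) ≤ (p : ℝ) ^ (3 * e) := Real.one_le_rpow hp1 (by positivity)
      calc 2 * (R i : ℝ) + 1 ≤ 3 * (p : ℝ) ^ (3 * e) := by linarith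
        _ ≤ (p : ℝ) ^ e * (p : ℝ) ^ (3 * e) := mul_le_mul_of_nonneg_right hP2'.le (by positivity)
        _ = (p : ℝ) ^ (4 * e) := by rw [← Real.rpow_add hp0]; congr 1; ring
    have h2 : ∏ i, (2 * (R i : ℝ) + 1) ≤ (p : ℝ) ^ (4 * e * D) := by
      calc ∏ i, (2 * (R i : ℝ) + 1) ≤ ∏ _i : Fin k, (p : ℝ) ^ (4 * e) :=
            Finset.prod_le_prod (fun i _ => by positivity) (fun i _ => h1 i)
        _ = ((p : ℝ) ^ (4 * e)) ^ k := by rw [Finset.prod_const, Finset.card_univ, Fintype.card_fin]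
        _ ≤ ((p : ℝ) ^ (4 * e)) ^ D :=
            pow_le_pow_right₀ (Real.one_le_rpow hp1 (by positivity)) hkD
        _ = (p : ℝ) ^ (4 * e * D) := by rw [← Real.rpow_natCast, ← Real.rpow_mul hp0.le]
    have h3 : (B.card : ℝ) < (p : ℝ) ^ (4 * e * D) * (p : ℝ) ^ (4 * e * D) := by
      calc (B.card : ℝ) ≤ C * ∏ i, (2 * (R i : ℝ) + 1) := hBle
        _ ≤ C * (p : ℝ) ^ (4 * e * D) := mul_le_mul_of_nonneg_left h2 (by linarith)
        _ < _ := mul_lt_mul_of_pos_right hP1' (by positivity)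
    have h4 : (p : ℝ) ^ (4 * e * D) * (p : ℝ) ^ (4 * e * D) ≤ (p : ℝ) ^ ε := by
      rw [← Real.rpow_add hp0]
      exact Real.rpow_le_rpow_of_exponent_le hp1 (by linarith)
    linarith
  have hR1 : 1 ≤ R m := by
    have h1 : (1 : ℝ) ≤ R m := (Real.one_le_rpow hp1 (by positivity)).trans hm
    exact_mod_cast h1
  have hlin1 : ∀ j : ℤ, lin v (Pi.single m j) = (j : ZMod p) * v m := by
    intro j
    unfold lin
    rw [Finset.sum_eq_single m]
    · simp
    · intro i _ hi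
      simp [hi]
    · intro h
      exact absurd (Finset.mem_univ m) h
  have hsingle : ∀ j : ℤ, |j| ≤ R m → ∀ i, |(Pi.single m j : Fin k → ℤ) i| ≤ R i := by
    intro j hj i
    by_cases hi : i = m
    · subst hi
      simpa using hj
    · simp [hi]
  have hv0 : v m ≠ 0 := by
    intro h
    have h1 := hprop (Pi.single m 1) (hsingle 1 (by
      rw [abs_one]
      exact_mod_cast hR1)) (by rw [hlin1, h, mul_zero])
    have h2 := congrFun h1 m
    simp at h2
  have hRp : R m ≤ p := by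
    by_contra hcon
    have h0 := not_le.1 hcon
    have h1 := hprop (Pi.single m (p : ℤ)) (hsingle (p : ℤ) (by
      rw [abs_of_nonneg (by positivity)]
      exact_mod_cast h0.le)) (by rw [hlin1]; simp)
    have h2 := congrFun h1 m
    simp at h2
    omega
  have hAp : (p : ℝ) ^ e ≤ A.card :=
    (Real.rpow_le_rpow_of_exponent_le hp1 (by linarith)).trans hA
  have hAN : (p : ℝ) ^ (1 + e) ≤ A.card * (R m : ℝ) * max (A.card : ℝ) (R m) := by
    have hA0 : (0 : ℝ) ≤ A.card := Nat.cast_nonneg _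
    calc (p : ℝ) ^ (1 + e) = (p : ℝ) ^ (1 / 2 - e) * (p : ℝ) ^ (3 * e) * (p : ℝ) ^ (1 / 2 - e) := by
          rw [← Real.rpow_add hp0, ← Real.rpow_add hp0]
          congr 1
          ring
      _ ≤ A.card * (R m : ℝ) * A.card := by
          refine mul_le_mul (mul_le_mul hA hm (by positivity) hA0) hA (by positivity) (by positivity)
      _ ≤ _ := mul_le_mul_of_nonneg_left (le_max_left _ _) (by positivity)
  -- Ruzsa covering
  obtain ⟨F, hFA, hFcard, hFcov⟩ := Finset.ruzsa_covering_add (A := Y) (B := B)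
    (K := (p : ℝ) ^ (δ / 4) * Y.card / B.card) hBne (by
      rw [div_mul_cancel₀ _ hB0.ne']
      exact hY)
  have hFB : (F.card : ℝ) * B.card ≤ (p : ℝ) ^ (δ / 4) * Y.card := by
    rwa [le_div_iff₀ hB0] at hFcard
  -- the enlarged sets
  have hbig : ∀ s : ℕ, s ≤ 3 → (((F + (T - T)) + (bx (fun i => s * R i)).image (lin v)).card : ℝ)
      ≤ (C * C * (3 ^ D * C)) * (F.card * B.card) := by
    intro s hs
    have h1 : ((F + (T - T)) + (bx (fun i => s * R i)).image (lin v)).card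
        ≤ (F.card * (T.card * T.card)) * (3 ^ D * ∏ i, (2 * R i + 1)) := by
      refine Finset.card_add_le.trans (Nat.mul_le_mul ?_ ?_)
      · exact Finset.card_add_le.trans (Nat.mul_le_mul_left _ Finset.card_sub_le)
      · refine Finset.card_image_le.trans ?_
        rw [card_bx]
        calc ∏ i, (2 * (s * R i) + 1) ≤ ∏ i, (3 * (2 * R i + 1)) :=
              Finset.prod_le_prod (fun _ _ => Nat.zero_le _) (fun i _ => by nlinarith)
          _ = 3 ^ k * ∏ i, (2 * R i + 1) := by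
              rw [Finset.prod_mul_distrib, Finset.prod_const, Finset.card_univ, Fintype.card_fin]
          _ ≤ _ := Nat.mul_le_mul_right _ (Nat.pow_le_pow_right (by norm_num) hkD)
    have h2 : (((F + (T - T)) + (bx (fun i => s * R i)).image (lin v)).card : ℝ)
        ≤ (F.card * (T.card * T.card)) * (3 ^ D * ∏ i, (2 * (R i : ℝ) + 1)) := by
      exact_mod_cast h1
    refine h2.trans ?_
    calc ((F.card : ℝ) * (T.card * T.card)) * (3 ^ D * ∏ i, (2 * (R i : ℝ) + 1))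
        ≤ (F.card * (C * C)) * (3 ^ D * (C * B.card)) := by
          refine mul_le_mul ?_ ?_ (mul_nonneg (by positivity)
            (Finset.prod_nonneg fun i _ => by positivity)) (by positivity)
          · refine mul_le_mul_of_nonneg_left ?_ (Nat.cast_nonneg _)
            exact mul_le_mul hT hT (Nat.cast_nonneg _) (by linarith)
          · exact mul_le_mul_of_nonneg_left hvol (by positivity)
      _ = _ := by ring
  set Y2 := (F + (T - T)) + (bx (fun i => 2 * R i)).image (lin v) with hY2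
  have hYY2 : Y ⊆ Y2 := by
    intro y hy
    have h1 := hFcov hy
    rw [Finset.mem_add] at h1
    obtain ⟨x, hx, d, hd, e1⟩ := h1
    rw [Finset.mem_sub] at hd
    obtain ⟨b, hb, b', hb', e2⟩ := hd
    obtain ⟨t1, ht1, c1, hc1, e3⟩ := hcov b hb
    obtain ⟨t2, ht2, c2, hc2, e4⟩ := hcov b' hb'
    rw [hY2, Finset.mem_add]
    refine ⟨x + (t1 - t2), Finset.add_mem_add hx (Finset.sub_mem_sub ht1 ht2), lin v (c1 - c2),
      ?_, ?_⟩
    · rw [Finset.mem_image]
      refine ⟨c1 - c2, ?_, rfl⟩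
      rw [mem_bx]
      intro i
      rw [Pi.sub_apply]
      calc |c1 i - c2 i| ≤ |c1 i| + |c2 i| := abs_sub _ _
        _ ≤ R i + R i := add_le_add (hc1 i) (hc2 i)
        _ = ((2 * R i : ℕ) : ℤ) := by push_cast; ring
    · rw [← e1, ← e2, e3, e4, lin_sub]
      ring
  have hY2I : Y2 + AP (v m) (R m) ⊆ (F + (T - T)) + (bx (fun i => 3 * R i)).image (lin v) := by
    intro z hz
    rw [Finset.mem_add] at hz
    obtain ⟨y, hy, w, hw, e1⟩ := hz
    rw [hY2, Finset.mem_add] at hy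
    obtain ⟨g, hg, h, hh, e2⟩ := hy
    rw [Finset.mem_image] at hh
    obtain ⟨c, hc, e3⟩ := hh
    unfold AP at hw
    rw [Finset.mem_image] at hw
    obtain ⟨j, hj, e4⟩ := hw
    rw [Finset.mem_range] at hj
    rw [Finset.mem_add]
    refine ⟨g, hg, lin v (c + Pi.single m (j : ℤ)), ?_, ?_⟩
    · rw [Finset.mem_image]
      refine ⟨c + Pi.single m (j : ℤ), ?_, rfl⟩
      rw [mem_bx] at hc ⊢
      intro i
      have h1 := hsingle (j : ℤ) (by
        rw [abs_of_nonneg (by positivity)]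
        exact_mod_cast hj.le) i
      rw [Pi.add_apply]
      calc |c i + (Pi.single m (j : ℤ) : Fin k → ℤ) i|
          ≤ |c i| + |(Pi.single m (j : ℤ) : Fin k → ℤ) i| := abs_add_le _ _
        _ ≤ ((2 * R i : ℕ) : ℤ) + R i := add_le_add (hc i) h1
        _ = ((3 * R i : ℕ) : ℤ) := by push_cast; ring
    · rw [← e1, ← e2, ← e3, ← e4, lin_add, hlin1]
      push_cast
      ring
  have hc2 : (C * C * (3 ^ D * C)) * (F.card * B.card) ≤ (p : ℝ) ^ (δ / 2) * Y.card := by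
    calc (C * C * (3 ^ D * C)) * (F.card * B.card)
        ≤ (p : ℝ) ^ (δ / 4) * ((p : ℝ) ^ (δ / 4) * Y.card) :=
          mul_le_mul hP3'.le hFB (by positivity) (by positivity)
      _ = _ := by
          rw [← mul_assoc, ← Real.rpow_add hp0]
          congr 2
          ring
  have hY2card : (Y2.card : ℝ) ≤ (p : ℝ) ^ (δ / 2) * Y.card := (hbig 2 (by norm_num)).trans hc2
  have hYle : (Y.card : ℝ) ≤ Y2.card := by exact_mod_cast Finset.card_le_card hYY2
  have hY2inv : ((Y2 + AP (v m) (R m)).card : ℝ) ≤ (p : ℝ) ^ δ * Y2.card := by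
    have h1 : ((Y2 + AP (v m) (R m)).card : ℝ)
        ≤ (((F + (T - T)) + (bx (fun i => 3 * R i)).image (lin v)).card : ℝ) := by
      exact_mod_cast Finset.card_le_card hY2I
    calc ((Y2 + AP (v m) (R m)).card : ℝ) ≤ (p : ℝ) ^ (δ / 2) * Y.card :=
          (h1.trans (hbig 3 le_rfl)).trans hc2
      _ ≤ (p : ℝ) ^ δ * Y2.card := by
          refine mul_le_mul ?_ hYle (Nat.cast_nonneg _) (by positivity)
          exact Real.rpow_le_rpow_of_exponent_le hp1 (by linarith)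
  have hmain := hP0 p (by omega) χ hχ (R m) hRp
    ((Real.rpow_le_rpow_of_exponent_le hp1 (by linarith)).trans hm) (v m) hv0 A hAp hAN Y2 hY2inv
    α hα
  calc ∑ y ∈ Y, ‖∑ a ∈ A, α a * χ (a + y)‖ ≤ ∑ y ∈ Y2, ‖∑ a ∈ A, α a * χ (a + y)‖ :=
        Finset.sum_le_sum_of_subset_of_nonneg hYY2 fun _ _ _ => norm_nonneg _
    _ ≤ (p : ℝ) ^ (-(2 * δ)) * (A.card * Y2.card) := hmain
    _ ≤ (p : ℝ) ^ (-(2 * δ)) * (A.card * ((p : ℝ) ^ (δ / 2) * Y.card)) := by
        refine mul_le_mul_of_nonneg_left ?_ (by positivity)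
        exact mul_le_mul_of_nonneg_left hY2card (Nat.cast_nonneg _)
    _ = ((p : ℝ) ^ (-(2 * δ)) * (p : ℝ) ^ (δ / 2)) * (A.card * Y.card) := by ring
    _ ≤ (p : ℝ) ^ (-(2 * (δ / 4))) * (A.card * Y.card) := by
        refine mul_le_mul_of_nonneg_right ?_ (by positivity)
        rw [← Real.rpow_add hp0]
        exact Real.rpow_le_rpow_of_exponent_le hp1 (by linarith)

end Pool.Agent.W27.TQ
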