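import Pool.Agent.W27.TQ.Kernel

/-! Counting pairs of shifted ratios in a set of pairs. -/

set_option autoImplicit false

namespace Pool.Agent.W27.TQ

open Finset

variable {p : ℕ} [Fact p.Prime]

/-- elements of `A` whose translate by `y d` is in `A` -/
def SS (A : Finset (ZMod p)) (d : ZMod p) (y : ℕ) : Finset (ZMod p) :=
  A.filter (fun s => s + (y : ZMod p) * d ∈ A)

theorem SS_card_le (A : Finset (ZMod p)) (d : ZMod p) (y : ℕ) : (SS A d y).card ≤ A.card :=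
  Finset.card_filter_le _ _

theorem SS_sum (A : Finset (ZMod p)) (y : ℕ) (hy : (y : ZMod p) ≠ 0) :
    ∑ d : ZMod p, (SS A d y).card = A.card ^ 2 := by
  classical
  unfold SS
  simp only [Finset.card_filter]
  rw [Finset.sum_comm]
  have h1 : ∀ s ∈ A, ∑ d : ZMod p, (if s + (y : ZMod p) * d ∈ A then 1 else 0) = A.card := by
    intro s _
    rw [← Finset.card_filter]
    refine Finset.card_bij' (fun d _ => s + (y : ZMod p) * d)
      (fun a _ => (a - s) / (y : ZMod p)) ?_ ?_ ?_ ?_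
    · intro d hd
      rw [Finset.mem_filter] at hd
      exact hd.2
    · intro a ha
      rw [Finset.mem_filter]
      refine ⟨Finset.mem_univ _, ?_⟩
      have : s + (y : ZMod p) * ((a - s) / (y : ZMod p)) = a := by
        field_simp
        ring
      rw [this]
      exact ha
    · intro d _
      field_simp
      ring
    · intro a _
      field_simp
      ring
  rw [Finset.sum_congr rfl h1, Finset.sum_const, smul_eq_mul, sq]

/-- the bound for the energy -/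
noncomputable def EE (p Y0 M T : ℕ) (a : ℝ) : ℝ :=
  4 * T * p / (M : ℝ) ^ 3 * (Y0 * (a ^ 2 * min (a * (M : ℝ) ^ 2) (p * M)))
    + 4 * p * Y0 / (M : ℝ) ^ 2 * (Y0 * a ^ 3)

theorem energy (Y0 M T : ℕ) (hM : 1 ≤ M) (hMp : M ≤ p) (hYp : Y0 < p) (hYM : 2 * (Y0 * M) < p)
    (hT : ∀ m : ℕ, 1 ≤ m → m ≤ Y0 * M → m.divisors.card ≤ T) (A : Finset (ZMod p)) :
    ∑ d : ZMod p, ∑ u : ZMod p, GG Y0 M (SS A d) u ^ 2 ≤ EE p Y0 M T A.card := by
  classical
  have hMR : (0 : ℝ) < M := by exact_mod_cast hM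
  have hy0 : ∀ y ∈ Icc 1 Y0, ((y : ℕ) : ZMod p) ≠ 0 := by
    intro y hy
    rw [Finset.mem_Icc] at hy
    intro h
    rw [ZMod.natCast_eq_zero_iff] at h
    have := Nat.le_of_dvd (by omega) h
    omega
  have h1 : ∀ d : ZMod p, ∑ u : ZMod p, GG Y0 M (SS A d) u ^ 2
      ≤ 4 * T * p / (M : ℝ) ^ 3 * ∑ y ∈ Icc 1 Y0,
          ((SS A d y).card : ℝ) * min (A.card * (M : ℝ) ^ 2) (p * M)
        + 4 * p * Y0 / (M : ℝ) ^ 2 * ∑ y ∈ Icc 1 Y0, ((SS A d y).card : ℝ) * (A.card : ℝ) := by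
    intro d
    refine (GG_sq Y0 M T hM hYM hT (SS A d)).trans ?_
    have hc : ∀ y, ((SS A d y).card : ℝ) ≤ A.card := fun y => by exact_mod_cast SS_card_le A d y
    refine add_le_add (mul_le_mul_of_nonneg_left ?_ (by positivity))
      (mul_le_mul_of_nonneg_left ?_ (by positivity))
    · refine Finset.sum_le_sum fun y _ => (DD_energy M hMp (SS A d y)).trans ?_
      refine mul_le_mul_of_nonneg_left ?_ (Nat.cast_nonneg _)
      exact min_le_min (mul_le_mul_of_nonneg_right (hc y) (by positivity)) le_rfl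
    · refine Finset.sum_le_sum fun y _ => ?_
      rw [sq]
      exact mul_le_mul_of_nonneg_left (hc y) (Nat.cast_nonneg _)
  refine (Finset.sum_le_sum fun d _ => h1 d).trans ?_
  rw [Finset.sum_add_distrib, ← Finset.mul_sum, ← Finset.mul_sum]
  have h2 : ∀ c : ℝ, ∑ d : ZMod p, ∑ y ∈ Icc 1 Y0, ((SS A d y).card : ℝ) * c
      = Y0 * ((A.card : ℝ) ^ 2 * c) := by
    intro c
    rw [Finset.sum_comm]
    have h3 : ∀ y ∈ Icc 1 Y0, ∑ d : ZMod p, ((SS A d y).card : ℝ) * c = (A.card : ℝ) ^ 2 * c := by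
      intro y hy
      rw [← Finset.sum_mul]
      congr 1
      exact_mod_cast SS_sum A y (hy0 y hy)
    rw [Finset.sum_congr rfl h3, Finset.sum_const, Nat.card_Icc, nsmul_eq_mul, Nat.add_sub_cancel]
  rw [h2, h2]
  unfold EE
  apply le_of_eq
  ring

/-- the number of bad pairs for the shift `z` -/
noncomputable def RR (N : ℕ) (A : Finset (ZMod p)) (Z : Finset (ZMod p × ZMod p)) (z : ZMod p) : ℝ :=
  ∑ x ∈ Icc (-(N : ℤ)) N, ∑ a ∈ A,
    ((A.filter (fun a' => ((a + (x : ZMod p)) / z, (a' + (x : ZMod p)) / z) ∈ Z)).card : ℝ)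

theorem RR_le (M N : ℕ) (hM : 1 ≤ M) (hN : 8 * (M * N) ≤ p) (A : Finset (ZMod p))
    (Z : Finset (ZMod p × ZMod p)) (y : ℕ) (hy : (y : ZMod p) ≠ 0) :
    RR N A Z (y : ZMod p) ≤ ∑ q ∈ Z, ∑ s ∈ SS A (q.2 - q.1) y, FF M ((y : ZMod p) * q.1 - s) := by
  classical
  have hpp := (Fact.out : p.Prime).pos
  have h2N : 2 * N < p := by
    have : 1 * N ≤ M * N := Nat.mul_le_mul_right _ hM
    omega
  set T' := ((Icc (-(N : ℤ)) N) ×ˢ A ×ˢ A).filter
    (fun t => ((t.2.1 + (t.1 : ZMod p)) / (y : ZMod p), (t.2.2 + (t.1 : ZMod p)) / (y : ZMod p)) ∈ Z)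
    with hT'
  have e1 : RR N A Z (y : ZMod p) = ∑ _t ∈ T', (1 : ℝ) := by
    rw [hT', Finset.sum_filter, Finset.sum_product]
    unfold RR
    refine Finset.sum_congr rfl fun x _ => ?_
    rw [Finset.sum_product]
    refine Finset.sum_congr rfl fun a _ => ?_
    rw [Finset.card_filter]
    push_cast
    rfl
  have e2 : ∑ q ∈ Z, ∑ s ∈ SS A (q.2 - q.1) y, FF M ((y : ZMod p) * q.1 - s)
      = ∑ r ∈ (Z ×ˢ A).filter (fun r => r.2 + (y : ZMod p) * (r.1.2 - r.1.1) ∈ A),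
        FF M ((y : ZMod p) * r.1.1 - r.2) := by
    rw [Finset.sum_filter, Finset.sum_product]
    refine Finset.sum_congr rfl fun q _ => ?_
    unfold SS
    rw [Finset.sum_filter]
  rw [e1, e2]
  let φ : ℤ × ZMod p × ZMod p → (ZMod p × ZMod p) × ZMod p := fun t =>
    (((t.2.1 + (t.1 : ZMod p)) / (y : ZMod p), (t.2.2 + (t.1 : ZMod p)) / (y : ZMod p)), t.2.1)
  have hφx : ∀ t : ℤ × ZMod p × ZMod p, (y : ZMod p) * (φ t).1.1 - (φ t).2 = (t.1 : ZMod p) := by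
    intro t
    show (y : ZMod p) * ((t.2.1 + (t.1 : ZMod p)) / (y : ZMod p)) - t.2.1 = (t.1 : ZMod p)
    field_simp
    ring
  have hinj : Set.InjOn φ (T' : Set (ℤ × ZMod p × ZMod p)) := by
    intro t ht t' ht' hh
    rw [Finset.mem_coe, hT', Finset.mem_filter, Finset.mem_product, Finset.mem_Icc] at ht ht'
    have h1 : (t.1 : ZMod p) = (t'.1 : ZMod p) := by rw [← hφx t, ← hφx t', hh]
    have h2 : t.1 = t'.1 := by
      have h3 : ((t.1 - t'.1 : ℤ) : ZMod p) = 0 := by push_cast; rw [h1, sub_self]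
      rw [ZMod.intCast_zmod_eq_zero_iff_dvd] at h3
      have h4 : |t.1 - t'.1| < (p : ℤ) := by
        rw [abs_lt]
        have ha := ht.1.1
        have hb := ht'.1.1
        constructor <;> omega
      have h5 := Int.eq_zero_of_abs_lt_dvd h3 h4
      omega
    have h3 : t.2.1 = t'.2.1 := congrArg Prod.snd hh
    have h4 : (t.2.2 + (t.1 : ZMod p)) / (y : ZMod p) = (t'.2.2 + (t'.1 : ZMod p)) / (y : ZMod p) :=
      congrArg (fun q : (ZMod p × ZMod p) × ZMod p => q.1.2) hh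
    rw [div_left_inj' hy, h2] at h4
    exact Prod.ext h2 (Prod.ext h3 (add_right_cancel h4))
  calc ∑ _t ∈ T', (1 : ℝ) ≤ ∑ t ∈ T', FF M ((y : ZMod p) * (φ t).1.1 - (φ t).2) := by
        refine Finset.sum_le_sum fun t ht => ?_
        rw [hφx]
        refine one_le_FF M hM t.1 ?_
        rw [hT', Finset.mem_filter, Finset.mem_product, Finset.mem_Icc] at ht
        have h1 : |t.1| ≤ (N : ℤ) := abs_le.2 ht.1.1
        calc 8 * (M : ℤ) * |t.1| ≤ 8 * (M : ℤ) * N := mul_le_mul_of_nonneg_left h1 (by positivity)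
          _ = ((8 * (M * N) : ℕ) : ℤ) := by push_cast; ring
          _ ≤ p := by exact_mod_cast hN
    _ = ∑ r ∈ T'.image φ, FF M ((y : ZMod p) * r.1.1 - r.2) := (Finset.sum_image
        (f := fun r : (ZMod p × ZMod p) × ZMod p => FF M ((y : ZMod p) * r.1.1 - r.2)) hinj).symm
    _ ≤ _ := by
        refine Finset.sum_le_sum_of_subset_of_nonneg ?_ fun _ _ _ => FF_nonneg _ _
        intro r hr
        rw [Finset.mem_image] at hr
        obtain ⟨t, ht, rfl⟩ := hr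
        rw [hT', Finset.mem_filter, Finset.mem_product, Finset.mem_product] at ht
        rw [Finset.mem_filter, Finset.mem_product]
        refine ⟨⟨ht.2, ht.1.2.1⟩, ?_⟩
        have : (φ t).2 + (y : ZMod p) * ((φ t).1.2 - (φ t).1.1) = t.2.2 := by
          show t.2.1 + (y : ZMod p) * ((t.2.2 + (t.1 : ZMod p)) / (y : ZMod p)
            - (t.2.1 + (t.1 : ZMod p)) / (y : ZMod p)) = t.2.2
          field_simp
          ring
        rw [this]
        exact ht.1.2.2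

/-- the total number of bad pairs -/
theorem bad_count (Y0 M T N : ℕ) (hM : 1 ≤ M) (hMp : M ≤ p) (hYp : Y0 < p)
    (hYM : 2 * (Y0 * M) < p) (hN : 8 * (M * N) ≤ p)
    (hT : ∀ m : ℕ, 1 ≤ m → m ≤ Y0 * M → m.divisors.card ≤ T) (A : Finset (ZMod p))
    (Z : Finset (ZMod p × ZMod p)) :
    (∑ y ∈ Icc 1 Y0, RR N A Z (y : ZMod p)) ^ 2 ≤ Z.card * EE p Y0 M T A.card := by
  classical
  have hy0 : ∀ y ∈ Icc 1 Y0, ((y : ℕ) : ZMod p) ≠ 0 := by
    intro y hy
    rw [Finset.mem_Icc] at hy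
    intro h
    rw [ZMod.natCast_eq_zero_iff] at h
    have := Nat.le_of_dvd (by omega) h
    omega
  have h1 : ∑ y ∈ Icc 1 Y0, RR N A Z (y : ZMod p) ≤ ∑ q ∈ Z, GG Y0 M (SS A (q.2 - q.1)) q.1 := by
    refine (Finset.sum_le_sum fun y hy => RR_le M N hM hN A Z y (hy0 y hy)).trans ?_
    rw [Finset.sum_comm]
    rfl
  have h0 : 0 ≤ ∑ y ∈ Icc 1 Y0, RR N A Z (y : ZMod p) := by
    unfold RR
    positivity
  have h2 : (∑ q ∈ Z, GG Y0 M (SS A (q.2 - q.1)) q.1) ^ 2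
      ≤ Z.card * ∑ q ∈ Z, GG Y0 M (SS A (q.2 - q.1)) q.1 ^ 2 := sq_sum_le_card_mul_sum_sq
  have h3 : ∑ q ∈ Z, GG Y0 M (SS A (q.2 - q.1)) q.1 ^ 2
      ≤ ∑ d : ZMod p, ∑ u : ZMod p, GG Y0 M (SS A d) u ^ 2 := by
    calc ∑ q ∈ Z, GG Y0 M (SS A (q.2 - q.1)) q.1 ^ 2
        ≤ ∑ q : ZMod p × ZMod p, GG Y0 M (SS A (q.2 - q.1)) q.1 ^ 2 :=
          Finset.sum_le_sum_of_subset_of_nonneg (Finset.subset_univ _) fun _ _ _ => by positivity
      _ = ∑ u : ZMod p, ∑ u' : ZMod p, GG Y0 M (SS A (u' - u)) u ^ 2 := Fintype.sum_prod_type _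
      _ = ∑ u : ZMod p, ∑ d : ZMod p, GG Y0 M (SS A d) u ^ 2 := by
          refine Finset.sum_congr rfl fun u _ => ?_
          exact (Equiv.subRight u).sum_comp (fun d => GG Y0 M (SS A d) u ^ 2)
      _ = _ := Finset.sum_comm
  calc (∑ y ∈ Icc 1 Y0, RR N A Z (y : ZMod p)) ^ 2
      ≤ (∑ q ∈ Z, GG Y0 M (SS A (q.2 - q.1)) q.1) ^ 2 := pow_le_pow_left₀ h0 h1 2
    _ ≤ Z.card * ∑ q ∈ Z, GG Y0 M (SS A (q.2 - q.1)) q.1 ^ 2 := h2
    _ ≤ _ := mul_le_mul_of_nonneg_left (h3.trans (energy Y0 M T hM hMp hYp hYM hT A))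
        (Nat.cast_nonneg _)

end Pool.Agent.W27.TQ
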