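import Pool.Agent.W27.TQ.Sieve

/-! The Fejer majorant and its dilates. -/

set_option autoImplicit false

namespace Pool.Agent.W27.TQ

open Finset

variable {p : ℕ} [Fact p.Prime]

/-- the Dirichlet kernel -/
noncomputable def DD (M : ℕ) (x : ZMod p) : ℂ := ∑ j ∈ range M, ee ((j : ZMod p) * x)

/-- the Fejer majorant -/
noncomputable def FF (M : ℕ) (x : ZMod p) : ℝ := 2 / (M : ℝ) ^ 2 * ‖DD M x‖ ^ 2

theorem FF_nonneg (M : ℕ) (x : ZMod p) : 0 ≤ FF M x := by unfold FF; positivity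

theorem DD_le (M : ℕ) (x : ZMod p) : ‖DD M x‖ ≤ M := by
  unfold DD
  refine (norm_sum_le _ _).trans ?_
  simp [ee_norm]

theorem DD_neg (M : ℕ) (x : ZMod p) : ‖DD M (-x)‖ = ‖DD M x‖ := by
  have : DD M (-x) = (starRingEnd ℂ) (DD M x) := by
    unfold DD
    rw [map_sum]
    refine Finset.sum_congr rfl fun j _ => ?_
    rw [ee_conj, mul_neg]
  rw [this, RCLike.norm_conj]

theorem DD_sum (M : ℕ) (hM : M ≤ p) : ∑ x : ZMod p, ‖DD M x‖ ^ 2 ≤ p * M := by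
  classical
  have h := mean_square_le (p := p) (range M) (fun _ => 1) (fun j => (j : ZMod p))
  have e : ∀ x : ZMod p, ∑ i ∈ range M, (1 : ℂ) * ee ((i : ZMod p) * x) = DD M x := by
    intro x
    unfold DD
    simp
  simp only [e] at h
  refine h.trans ?_
  refine mul_le_mul_of_nonneg_left ?_ (Nat.cast_nonneg _)
  have h1 : ∀ i ∈ range M, (((range M).filter (fun j : ℕ => (j : ZMod p) = (i : ZMod p))).card : ℝ)
      * ‖(1 : ℂ)‖ ^ 2 ≤ 1 := by
    intro i hi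
    have h2 : ((range M).filter (fun j : ℕ => (j : ZMod p) = (i : ZMod p))).card ≤ 1 := by
      rw [Finset.card_le_one]
      intro a ha b hb
      rw [Finset.mem_filter, Finset.mem_range] at ha hb
      have h3 : (a : ZMod p) = (b : ZMod p) := ha.2.trans hb.2.symm
      rw [ZMod.natCast_eq_natCast_iff'] at h3
      rwa [Nat.mod_eq_of_lt (ha.1.trans_le hM), Nat.mod_eq_of_lt (hb.1.trans_le hM)] at h3
    simp only [norm_one, one_pow, mul_one]
    exact_mod_cast h2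
  calc _ ≤ ∑ _i ∈ range M, (1 : ℝ) := Finset.sum_le_sum h1
    _ = M := by simp

theorem ee_intCast (n : ℤ) :
    ee ((n : ℤ) : ZMod p) = Complex.exp (2 * Real.pi * Complex.I * n / p) := by
  unfold ee
  rw [ZMod.stdAddChar_coe]

theorem ee_re (n : ℤ) : (ee ((n : ℤ) : ZMod p)).re = Real.cos (2 * Real.pi * n / p) := by
  rw [ee_intCast]
  have : (2 * (Real.pi : ℂ) * Complex.I * n / p) = ((2 * Real.pi * n / p : ℝ) : ℂ) * Complex.I := by
    push_cast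
    ring
  rw [this, Complex.exp_ofReal_mul_I_re]

theorem one_le_FF (M : ℕ) (hM : 1 ≤ M) (n : ℤ) (hn : 8 * (M : ℤ) * |n| ≤ p) :
    1 ≤ FF M ((n : ℤ) : ZMod p) := by
  have hp0 : (0 : ℝ) < p := by exact_mod_cast (Fact.out : p.Prime).pos
  have hMR : (0 : ℝ) < M := by exact_mod_cast hM
  have h1 : (M : ℝ) * (Real.sqrt 2 / 2) ≤ ‖DD M ((n : ℤ) : ZMod p)‖ := by
    refine le_trans ?_ (Complex.re_le_norm _)
    unfold DD
    rw [Complex.re_sum]
    calc (M : ℝ) * (Real.sqrt 2 / 2) = ∑ _j ∈ range M, (Real.sqrt 2 / 2) := by simp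
      _ ≤ _ := by
          refine Finset.sum_le_sum fun j hj => ?_
          have hj' := Finset.mem_range.1 hj
          have e1 : ((j : ZMod p) * ((n : ℤ) : ZMod p)) = (((j : ℤ) * n : ℤ) : ZMod p) := by
            push_cast
            ring
          rw [e1, ee_re, ← Real.cos_pi_div_four, ← Real.cos_abs (2 * Real.pi * _ / _)]
          apply Real.cos_le_cos_of_nonneg_of_le_pi (abs_nonneg _) (by
            have := Real.pi_pos
            linarith)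
          have hπ := Real.pi_pos
          rw [abs_div, abs_mul, abs_of_pos hp0, abs_of_pos (by positivity : 0 < 2 * Real.pi),
            div_le_iff₀ hp0]
          have h2 : (8 : ℝ) * M * |(n : ℝ)| ≤ p := by exact_mod_cast hn
          have h3 : |(((j : ℤ) * n : ℤ) : ℝ)| ≤ M * |(n : ℝ)| := by
            push_cast
            rw [abs_mul, Nat.abs_cast]
            refine mul_le_mul_of_nonneg_right ?_ (abs_nonneg _)
            exact_mod_cast hj'.le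
          nlinarith
  unfold FF
  have h4 : (M : ℝ) ^ 2 / 2 ≤ ‖DD M ((n : ℤ) : ZMod p)‖ ^ 2 := by
    calc (M : ℝ) ^ 2 / 2 = ((M : ℝ) * (Real.sqrt 2 / 2)) ^ 2 := by
          rw [mul_pow, div_pow, Real.sq_sqrt (by norm_num)]
          ring
      _ ≤ _ := pow_le_pow_left₀ (by positivity) h1 2
  calc (1 : ℝ) = 2 / (M : ℝ) ^ 2 * ((M : ℝ) ^ 2 / 2) := by field_simp
    _ ≤ _ := mul_le_mul_of_nonneg_left h4 (by positivity)

theorem norm_two_div (M : ℕ) : ‖(2 / (M : ℂ) ^ 2 : ℂ)‖ ^ 2 = 4 / (M : ℝ) ^ 4 := by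
  have h : ‖(2 / (M : ℂ) ^ 2 : ℂ)‖ = 2 / (M : ℝ) ^ 2 := by
    rw [norm_div, norm_pow, Complex.norm_natCast]
    simp
  rw [h, div_pow, ← pow_mul]
  norm_num

/-- square of the Dirichlet kernel as a double sum -/
theorem DD_sq (M : ℕ) (x : ZMod p) : ((‖DD M x‖ ^ 2 : ℝ) : ℂ)
    = ∑ j ∈ range M, ∑ j' ∈ range M, ee (((j : ZMod p) - (j' : ZMod p)) * x) := by
  push_cast
  rw [← Complex.mul_conj']
  unfold DD
  rw [map_sum, Finset.sum_mul_sum]
  refine Finset.sum_congr rfl fun j _ => Finset.sum_congr rfl fun j' _ => ?_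
  rw [ee_conj, ← ee_add]
  congr 1
  ring

/-- the dilated kernel sum -/
noncomputable def GG (Y0 M : ℕ) (S : ℕ → Finset (ZMod p)) (u : ZMod p) : ℝ :=
  ∑ y ∈ Icc 1 Y0, ∑ s ∈ S y, FF M ((y : ZMod p) * u - s)

/-- its Fourier coefficients -/
noncomputable def CC (M : ℕ) (S : ℕ → Finset (ZMod p)) (i : ℕ × ℕ × ℕ) : ℂ :=
  (2 / (M : ℂ) ^ 2) * ∑ s ∈ S i.1, ee (-(((i.2.1 : ZMod p) - (i.2.2 : ZMod p)) * s))

theorem GG_eq (Y0 M : ℕ) (S : ℕ → Finset (ZMod p)) (u : ZMod p) :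
    ((GG Y0 M S u : ℝ) : ℂ) = ∑ i ∈ idx Y0 M, CC M S i * ee (((fr i : ℤ) : ZMod p) * u) := by
  unfold GG idx
  rw [Finset.sum_product]
  push_cast
  refine Finset.sum_congr rfl fun y _ => ?_
  rw [Finset.sum_product]
  have e1 : ∀ s, ((FF M ((y : ZMod p) * u - s) : ℝ) : ℂ)
      = ∑ j ∈ range M, ∑ j' ∈ range M, (2 / (M : ℂ) ^ 2) *
        ee (((j : ZMod p) - (j' : ZMod p)) * ((y : ZMod p) * u - s)) := by
    intro s
    unfold FF
    rw [Complex.ofReal_mul, DD_sq, Finset.mul_sum]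
    push_cast
    refine Finset.sum_congr rfl fun j _ => ?_
    rw [Finset.mul_sum]
  simp only [e1]
  rw [Finset.sum_comm]
  refine Finset.sum_congr rfl fun j _ => ?_
  rw [Finset.sum_comm]
  refine Finset.sum_congr rfl fun j' _ => ?_
  unfold CC fr
  rw [Finset.mul_sum, Finset.sum_mul]
  refine Finset.sum_congr rfl fun s _ => ?_
  rw [mul_assoc, ← ee_add]
  congr 2
  push_cast
  ring

theorem CC_sum (M : ℕ) (S : ℕ → Finset (ZMod p)) (y : ℕ) :
    ∑ j ∈ range M, ∑ j' ∈ range M, ‖CC M S (y, j, j')‖ ^ 2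
      = 4 / (M : ℝ) ^ 4 * ∑ s ∈ S y, ∑ s' ∈ S y, ‖DD M (s' - s)‖ ^ 2 := by
  have key : ((∑ j ∈ range M, ∑ j' ∈ range M,
      ‖∑ s ∈ S y, ee (-(((j : ZMod p) - (j' : ZMod p)) * s))‖ ^ 2 : ℝ) : ℂ)
      = ((∑ s ∈ S y, ∑ s' ∈ S y, ‖DD M (s' - s)‖ ^ 2 : ℝ) : ℂ) := by
    push_cast
    have e1 : ∀ j j' : ℕ, ((‖∑ s ∈ S y, ee (-(((j : ZMod p) - (j' : ZMod p)) * s))‖ : ℝ) : ℂ) ^ 2
        = ∑ s ∈ S y, ∑ s' ∈ S y, ee (((j : ZMod p) - (j' : ZMod p)) * (s' - s)) := by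
      intro j j'
      rw [← Complex.mul_conj', map_sum, Finset.sum_mul_sum]
      refine Finset.sum_congr rfl fun s _ => Finset.sum_congr rfl fun s' _ => ?_
      rw [ee_conj, ← ee_add]
      congr 1
      ring
    simp only [e1]
    have e2 : ∀ s s' : ZMod p, ((‖DD M (s' - s)‖ : ℝ) : ℂ) ^ 2
        = ∑ j ∈ range M, ∑ j' ∈ range M, ee (((j : ZMod p) - (j' : ZMod p)) * (s' - s)) := by
      intro s s'
      rw [← DD_sq]
      push_cast
      rfl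
    simp only [e2]
    calc ∑ j ∈ range M, ∑ j' ∈ range M, ∑ s ∈ S y, ∑ s' ∈ S y,
          ee (((j : ZMod p) - (j' : ZMod p)) * (s' - s))
        = ∑ j ∈ range M, ∑ s ∈ S y, ∑ j' ∈ range M, ∑ s' ∈ S y,
          ee (((j : ZMod p) - (j' : ZMod p)) * (s' - s)) :=
          Finset.sum_congr rfl fun j _ => Finset.sum_comm
      _ = ∑ s ∈ S y, ∑ j ∈ range M, ∑ j' ∈ range M, ∑ s' ∈ S y,
          ee (((j : ZMod p) - (j' : ZMod p)) * (s' - s)) := Finset.sum_comm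
      _ = ∑ s ∈ S y, ∑ j ∈ range M, ∑ s' ∈ S y, ∑ j' ∈ range M,
          ee (((j : ZMod p) - (j' : ZMod p)) * (s' - s)) :=
          Finset.sum_congr rfl fun s _ => Finset.sum_congr rfl fun j _ => Finset.sum_comm
      _ = _ := Finset.sum_congr rfl fun s _ => Finset.sum_comm
  have key' : ∑ j ∈ range M, ∑ j' ∈ range M,
      ‖∑ s ∈ S y, ee (-(((j : ZMod p) - (j' : ZMod p)) * s))‖ ^ 2
      = ∑ s ∈ S y, ∑ s' ∈ S y, ‖DD M (s' - s)‖ ^ 2 := by exact_mod_cast key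
  rw [← key', Finset.mul_sum]
  refine Finset.sum_congr rfl fun j _ => ?_
  rw [Finset.mul_sum]
  refine Finset.sum_congr rfl fun j' _ => ?_
  unfold CC
  rw [norm_mul, mul_pow, norm_two_div]

theorem CC_diag (M : ℕ) (hM : 1 ≤ M) (S : ℕ → Finset (ZMod p)) (y j : ℕ) :
    ‖CC M S (y, j, j)‖ ^ 2 = 4 / (M : ℝ) ^ 4 * ((S y).card : ℝ) ^ 2 := by
  unfold CC
  have : ∑ s ∈ S y, ee (-(((j : ZMod p) - (j : ZMod p)) * s)) = ((S y).card : ℂ) := by
    simp [ee]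
  simp only [this]
  rw [norm_mul, mul_pow, norm_two_div, Complex.norm_natCast]

/-- the mean square of the dilated kernel sum -/
theorem GG_sq (Y0 M T : ℕ) (hM : 1 ≤ M) (hYM : 2 * (Y0 * M) < p)
    (hT : ∀ m : ℕ, 1 ≤ m → m ≤ Y0 * M → m.divisors.card ≤ T) (S : ℕ → Finset (ZMod p)) :
    ∑ u : ZMod p, GG Y0 M S u ^ 2
      ≤ 4 * T * p / (M : ℝ) ^ 3 * ∑ y ∈ Icc 1 Y0, ∑ s ∈ S y, ∑ s' ∈ S y, ‖DD M (s' - s)‖ ^ 2
        + 4 * p * Y0 / (M : ℝ) ^ 2 * ∑ y ∈ Icc 1 Y0, ((S y).card : ℝ) ^ 2 := by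
  classical
  have hMR : (0 : ℝ) < M := by exact_mod_cast hM
  have h := mean_square_le (p := p) (idx Y0 M) (CC M S) (fun i => ((fr i : ℤ) : ZMod p))
  have e0 : ∀ u : ZMod p, ‖∑ i ∈ idx Y0 M, CC M S i * ee (((fr i : ℤ) : ZMod p) * u)‖ ^ 2
      = GG Y0 M S u ^ 2 := by
    intro u
    rw [← GG_eq, Complex.norm_real, Real.norm_eq_abs, sq_abs]
  simp only [e0] at h
  refine h.trans ?_
  have h1 : ∀ i ∈ idx Y0 M,
      (((idx Y0 M).filter (fun j => ((fr j : ℤ) : ZMod p) = ((fr i : ℤ) : ZMod p))).card : ℝ)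
        * ‖CC M S i‖ ^ 2
      ≤ T * M * ‖CC M S i‖ ^ 2 + (if i.2.1 = i.2.2 then Y0 * M * ‖CC M S i‖ ^ 2 else 0) := by
    intro i hi
    by_cases h0 : fr i = 0
    · have h2 : i.2.1 = i.2.2 := by
        unfold fr at h0
        unfold idx at hi
        rw [Finset.mem_product, Finset.mem_Icc] at hi
        rcases mul_eq_zero.1 h0 with h3 | h3
        · have := hi.1.1
          omega
        · omega
      rw [if_pos h2]
      have h3 : (((idx Y0 M).filter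
          (fun j => ((fr j : ℤ) : ZMod p) = ((fr i : ℤ) : ZMod p))).card : ℝ) ≤ Y0 * M := by
        exact_mod_cast mult_zero hYM hi h0
      have h4 : 0 ≤ T * M * ‖CC M S i‖ ^ 2 := by positivity
      have h5 := mul_le_mul_of_nonneg_right h3 (by positivity : 0 ≤ ‖CC M S i‖ ^ 2)
      linarith
    · have h3 : (((idx Y0 M).filter
          (fun j => ((fr j : ℤ) : ZMod p) = ((fr i : ℤ) : ZMod p))).card : ℝ) ≤ T * M := by
        exact_mod_cast mult_ne hYM T hT hi h0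
      have h4 : (0 : ℝ) ≤ (if i.2.1 = i.2.2 then Y0 * M * ‖CC M S i‖ ^ 2 else 0) := by
        split_ifs <;> positivity
      have h5 := mul_le_mul_of_nonneg_right h3 (by positivity : 0 ≤ ‖CC M S i‖ ^ 2)
      linarith
  have h2 : ∑ i ∈ idx Y0 M,
      (((idx Y0 M).filter (fun j => ((fr j : ℤ) : ZMod p) = ((fr i : ℤ) : ZMod p))).card : ℝ)
        * ‖CC M S i‖ ^ 2
      ≤ T * M * (4 / (M : ℝ) ^ 4 * ∑ y ∈ Icc 1 Y0, ∑ s ∈ S y, ∑ s' ∈ S y, ‖DD M (s' - s)‖ ^ 2)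
        + Y0 * M * (M * (4 / (M : ℝ) ^ 4 * ∑ y ∈ Icc 1 Y0, ((S y).card : ℝ) ^ 2)) := by
    refine (Finset.sum_le_sum h1).trans ?_
    rw [Finset.sum_add_distrib]
    refine add_le_add (le_of_eq ?_) (le_of_eq ?_)
    · have e4 : ∑ i ∈ idx Y0 M, ‖CC M S i‖ ^ 2
          = 4 / (M : ℝ) ^ 4 * ∑ y ∈ Icc 1 Y0, ∑ s ∈ S y, ∑ s' ∈ S y, ‖DD M (s' - s)‖ ^ 2 := by
        unfold idx
        rw [Finset.sum_product, Finset.mul_sum]
        refine Finset.sum_congr rfl fun y _ => ?_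
        rw [Finset.sum_product]
        exact CC_sum M S y
      rw [← Finset.mul_sum, e4]
    · unfold idx
      rw [Finset.sum_product, Finset.mul_sum, Finset.mul_sum, Finset.mul_sum]
      refine Finset.sum_congr rfl fun y _ => ?_
      rw [Finset.sum_product]
      have e3 : ∀ j ∈ range M, ∑ j' ∈ range M,
          (if j = j' then (Y0 : ℝ) * M * ‖CC M S (y, j, j')‖ ^ 2 else 0)
          = Y0 * M * (4 / (M : ℝ) ^ 4 * ((S y).card : ℝ) ^ 2) := by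
        intro j hj
        rw [Finset.sum_ite_eq, if_pos hj, CC_diag M hM]
      rw [Finset.sum_congr rfl e3, Finset.sum_const, Finset.card_range, nsmul_eq_mul]
      ring
  calc (p : ℝ) * ∑ i ∈ idx Y0 M,
      (((idx Y0 M).filter (fun j => ((fr j : ℤ) : ZMod p) = ((fr i : ℤ) : ZMod p))).card : ℝ)
        * ‖CC M S i‖ ^ 2
      ≤ p * (T * M * (4 / (M : ℝ) ^ 4 * ∑ y ∈ Icc 1 Y0, ∑ s ∈ S y, ∑ s' ∈ S y,
            ‖DD M (s' - s)‖ ^ 2)
        + Y0 * M * (M * (4 / (M : ℝ) ^ 4 * ∑ y ∈ Icc 1 Y0, ((S y).card : ℝ) ^ 2))) :=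
        mul_le_mul_of_nonneg_left h2 (Nat.cast_nonneg _)
    _ = _ := by
        field_simp

/-- the diagonal energy of a set -/
theorem DD_energy (M : ℕ) (hM : M ≤ p) (S : Finset (ZMod p)) :
    ∑ s ∈ S, ∑ s' ∈ S, ‖DD M (s' - s)‖ ^ 2 ≤ S.card * min (S.card * (M : ℝ) ^ 2) (p * M) := by
  have h1 : ∀ s ∈ S, ∑ s' ∈ S, ‖DD M (s' - s)‖ ^ 2 ≤ min (S.card * (M : ℝ) ^ 2) (p * M) := by
    intro s _
    refine le_min ?_ ?_
    · calc ∑ s' ∈ S, ‖DD M (s' - s)‖ ^ 2 ≤ ∑ _s' ∈ S, (M : ℝ) ^ 2 :=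
            Finset.sum_le_sum fun s' _ => pow_le_pow_left₀ (norm_nonneg _) (DD_le _ _) 2
        _ = _ := by rw [Finset.sum_const, nsmul_eq_mul]
    · calc ∑ s' ∈ S, ‖DD M (s' - s)‖ ^ 2 ≤ ∑ s' : ZMod p, ‖DD M (s' - s)‖ ^ 2 :=
            Finset.sum_le_sum_of_subset_of_nonneg (Finset.subset_univ _) fun _ _ _ => by positivity
        _ = ∑ x : ZMod p, ‖DD M x‖ ^ 2 :=
            (Equiv.subRight s).sum_comp (fun x => ‖DD M x‖ ^ 2)
        _ ≤ _ := DD_sum M hM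
  calc _ ≤ ∑ _s ∈ S, min (S.card * (M : ℝ) ^ 2) (p * M) := Finset.sum_le_sum h1
    _ = _ := by rw [Finset.sum_const, nsmul_eq_mul]

end Pool.Agent.W27.TQ
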