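import Pool.Agent.W27.TP.Pow
import Pool.Agent.W27.TQ.Count
import Pool.Agent.H510R2.Div

/-! Sums over one interval of the absolute value of a character sum over an arbitrary set. -/

set_option autoImplicit false

namespace Pool.Agent.W27.TQ

open Finset Pool.Agent.W27.TP Pool.Agent.W27.BG

variable {p : ℕ} [Fact p.Prime]

/-- the sum over an interval -/
theorem line_bound (N L : ℕ) (hL0 : 0 < L) (y : ℕ) (hy : (y : ZMod p) ≠ 0) (hyN : L * y ≤ N)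
    (χ : DirichletCharacter ℂ p) (B : ℝ) (hB : 0 ≤ B)
    (A : Finset (ZMod p)) (α : ZMod p → ℂ) (hα : ∀ a, ‖α a‖ ≤ 1) :
    (∑ x ∈ Icc (-(N : ℤ)) N, ‖∑ a ∈ A, α a * χ (a + (x : ZMod p))‖) ^ 2
      ≤ (4 * (N : ℝ) + 1) * (B / L * (A.card : ℝ) ^ 2 * (4 * (N : ℝ) + 1)
          + RR (2 * N) A (Bad2 L χ B) (y : ZMod p)) := by
  classical
  have hLR : (0 : ℝ) < L := by exact_mod_cast hL0
  set f : ZMod p → ℝ := fun w => ‖∑ a ∈ A, α a * χ (a + w)‖ with hf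
  have hf0 : ∀ w, 0 ≤ f w := fun w => norm_nonneg _
  set W := Icc (-((2 * N : ℕ) : ℤ)) ((2 * N : ℕ) : ℤ) with hW
  have hWcard : (W.card : ℝ) = 4 * (N : ℝ) + 1 := by
    rw [hW, Int.card_Icc]
    have : ((((2 * N : ℕ) : ℤ) + 1 - (-((2 * N : ℕ) : ℤ))).toNat : ℕ) = 4 * N + 1 := by omega
    rw [this]
    push_cast
    ring
  -- shifting
  have hshift : ∀ l ∈ range L, ∑ x ∈ Icc (-(N : ℤ)) N, f (x : ZMod p)
      ≤ ∑ x ∈ W, f ((x : ZMod p) + (l : ZMod p) * (y : ZMod p)) := by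
    intro l hl
    have hl' := Finset.mem_range.1 hl
    have h1 : ∑ x ∈ Icc (-(N : ℤ)) N, f (x : ZMod p)
        = ∑ x ∈ (Icc (-(N : ℤ)) N).image (fun x => x - (l : ℤ) * (y : ℤ)),
          f ((x : ZMod p) + (l : ZMod p) * (y : ZMod p)) := by
      rw [Finset.sum_image]
      · refine Finset.sum_congr rfl fun x _ => ?_
        congr 1
        push_cast
        ring
      · intro a _ b _ hab
        exact sub_left_injective hab
    rw [h1]
    refine Finset.sum_le_sum_of_subset_of_nonneg ?_ fun _ _ _ => hf0 _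
    intro x hx
    rw [Finset.mem_image] at hx
    obtain ⟨x', hx', rfl⟩ := hx
    rw [Finset.mem_Icc] at hx'
    rw [hW, Finset.mem_Icc]
    have h2 : (l : ℤ) * (y : ℤ) ≤ N := by
      have h3 : l * y ≤ L * y := Nat.mul_le_mul_right _ hl'.le
      exact_mod_cast h3.trans hyN
    have h3 : (0 : ℤ) ≤ (l : ℤ) * (y : ℤ) := by positivity
    push_cast
    constructor <;> linarith [hx'.1, hx'.2]
  have hLsum : (L : ℝ) * ∑ x ∈ Icc (-(N : ℤ)) N, f (x : ZMod p)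
      ≤ ∑ x ∈ W, ∑ l ∈ range L, f ((x : ZMod p) + (l : ZMod p) * (y : ZMod p)) := by
    rw [Finset.sum_comm]
    calc (L : ℝ) * ∑ x ∈ Icc (-(N : ℤ)) N, f (x : ZMod p)
        = ∑ _l ∈ range L, ∑ x ∈ Icc (-(N : ℤ)) N, f (x : ZMod p) := by
          rw [Finset.sum_const, Finset.card_range, nsmul_eq_mul]
      _ ≤ _ := Finset.sum_le_sum hshift
  -- the inner sums
  let u : ℤ → ZMod p → ZMod p := fun x a => (a + (x : ZMod p)) / (y : ZMod p)
  have hfu : ∀ x : ℤ, ∀ l ∈ range L, f ((x : ZMod p) + (l : ZMod p) * (y : ZMod p))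
      ≤ ‖∑ a ∈ A, α a * χ (u x a + (l : ZMod p))‖ := by
    intro x l _
    have h1 : ∑ a ∈ A, α a * χ (a + ((x : ZMod p) + (l : ZMod p) * (y : ZMod p)))
        = χ (y : ZMod p) * ∑ a ∈ A, α a * χ (u x a + (l : ZMod p)) := by
      rw [Finset.mul_sum]
      refine Finset.sum_congr rfl fun a _ => ?_
      have h2 : a + ((x : ZMod p) + (l : ZMod p) * (y : ZMod p))
          = (y : ZMod p) * (u x a + (l : ZMod p)) := by
        show _ = (y : ZMod p) * ((a + (x : ZMod p)) / (y : ZMod p) + (l : ZMod p))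
        field_simp
        ring
      rw [h2, map_mul]
      ring
    simp only [hf]
    rw [h1, norm_mul]
    exact mul_le_of_le_one_left (norm_nonneg _) (DirichletCharacter.norm_le_one χ _)
  set bd : ℤ → ℝ := fun x =>
    ∑ a ∈ A, ((A.filter (fun a' => (u x a, u x a') ∈ Bad2 L χ B)).card : ℝ) with hbd
  have hbdsum : ∑ x ∈ W, bd x = RR (2 * N) A (Bad2 L χ B) (y : ZMod p) := rfl
  have hinner : ∀ x : ℤ, (∑ l ∈ range L, f ((x : ZMod p) + (l : ZMod p) * (y : ZMod p))) ^ 2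
      ≤ L * (B * (A.card : ℝ) ^ 2 + L * bd x) := by
    intro x
    have h1 : (∑ l ∈ range L, f ((x : ZMod p) + (l : ZMod p) * (y : ZMod p))) ^ 2
        ≤ (range L).card * ∑ l ∈ range L, f ((x : ZMod p) + (l : ZMod p) * (y : ZMod p)) ^ 2 :=
      sq_sum_le_card_mul_sum_sq
    rw [Finset.card_range] at h1
    refine h1.trans (mul_le_mul_of_nonneg_left ?_ hLR.le)
    refine le_trans ?_ (inner_bound L χ B hB A α hα (u x))
    exact Finset.sum_le_sum fun l hl => pow_le_pow_left₀ (hf0 _) (hfu x l hl) 2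
  have hCS : (∑ x ∈ W, ∑ l ∈ range L, f ((x : ZMod p) + (l : ZMod p) * (y : ZMod p))) ^ 2
      ≤ W.card * ∑ x ∈ W, (L * (B * (A.card : ℝ) ^ 2 + L * bd x)) := by
    refine sq_sum_le_card_mul_sum_sq.trans (mul_le_mul_of_nonneg_left ?_ (Nat.cast_nonneg _))
    exact Finset.sum_le_sum fun x _ => hinner x
  have hS0 : 0 ≤ ∑ x ∈ Icc (-(N : ℤ)) N, f (x : ZMod p) := Finset.sum_nonneg fun _ _ => hf0 _
  have hfin : (L : ℝ) ^ 2 * (∑ x ∈ Icc (-(N : ℤ)) N, f (x : ZMod p)) ^ 2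
      ≤ (L : ℝ) ^ 2 * ((4 * (N : ℝ) + 1) * (B / L * (A.card : ℝ) ^ 2 * (4 * (N : ℝ) + 1)
          + RR (2 * N) A (Bad2 L χ B) (y : ZMod p))) := by
    calc (L : ℝ) ^ 2 * (∑ x ∈ Icc (-(N : ℤ)) N, f (x : ZMod p)) ^ 2
        = (L * ∑ x ∈ Icc (-(N : ℤ)) N, f (x : ZMod p)) ^ 2 := by ring
      _ ≤ (∑ x ∈ W, ∑ l ∈ range L, f ((x : ZMod p) + (l : ZMod p) * (y : ZMod p))) ^ 2 :=
          pow_le_pow_left₀ (by positivity) hLsum 2
      _ ≤ W.card * ∑ x ∈ W, (L * (B * (A.card : ℝ) ^ 2 + L * bd x)) := hCS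
      _ = W.card * (L * B * (A.card : ℝ) ^ 2 * W.card + (L : ℝ) ^ 2 * ∑ x ∈ W, bd x) := by
          rw [← Finset.mul_sum, Finset.sum_add_distrib, Finset.sum_const, nsmul_eq_mul,
            ← Finset.mul_sum]
          ring
      _ = _ := by
          rw [hWcard, hbdsum]
          field_simp
  exact le_of_mul_le_mul_left hfin (by positivity)

/-- some shift has few bad pairs -/
theorem exists_shift (Y0 M T N : ℕ) (hY : 1 ≤ Y0) (hM : 1 ≤ M) (hMp : M ≤ p) (hYp : Y0 < p)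
    (hYM : 2 * (Y0 * M) < p) (hN : 8 * (M * N) ≤ p)
    (hT : ∀ m : ℕ, 1 ≤ m → m ≤ Y0 * M → m.divisors.card ≤ T) (A : Finset (ZMod p))
    (Z : Finset (ZMod p × ZMod p)) :
    ∃ y : ℕ, 1 ≤ y ∧ y ≤ Y0 ∧ (Y0 * RR N A Z (y : ZMod p)) ^ 2 ≤ Z.card * EE p Y0 M T A.card := by
  classical
  obtain ⟨y, hy, hmin⟩ := Finset.exists_min_image (Icc 1 Y0)
    (fun y : ℕ => RR N A Z (y : ZMod p)) ⟨1, Finset.mem_Icc.2 ⟨le_rfl, hY⟩⟩
  rw [Finset.mem_Icc] at hy
  refine ⟨y, hy.1, hy.2, ?_⟩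
  refine le_trans ?_ (bad_count Y0 M T N hM hMp hYp hYM hN hT A Z)
  refine pow_le_pow_left₀ ?_ ?_ 2
  · unfold RR
    positivity
  · calc (Y0 : ℝ) * RR N A Z (y : ZMod p) = ∑ _y' ∈ Icc 1 Y0, RR N A Z (y : ZMod p) := by
          rw [Finset.sum_const, Nat.card_Icc, nsmul_eq_mul, Nat.add_sub_cancel]
      _ ≤ _ := Finset.sum_le_sum fun y' hy' => hmin y' hy'

end Pool.Agent.W27.TQ
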