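import Pool.Agent.W27.TQ.Line

/-! Power saving over one interval for an arbitrary set. -/

set_option autoImplicit false

namespace Pool.Agent.W27.TQ

open Finset Pool.Agent.W27.TP Pool.Agent.W27.BG

/-- numerical bound for the energy -/
theorem EE_le (p N M Y0 T : ℕ) (hp : 0 < p) (hN : 1 ≤ N) (hM : 1 ≤ M) (hpM : p < 32 * (N * M))
    (a : ℝ) (ha : 0 ≤ a) :
    EE p Y0 M T a ≤ 4096 * (T * N * Y0 * a ^ 2 * min a N + (N : ℝ) ^ 2 * Y0 ^ 2 * a ^ 3 / p) := by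
  have hMR : (0 : ℝ) < M := by exact_mod_cast hM
  have hNR : (0 : ℝ) < N := by exact_mod_cast hN
  have hpR : (0 : ℝ) < p := by exact_mod_cast hp
  have h1 : (p : ℝ) / M ≤ 32 * N := by
    rw [div_le_iff₀ hMR]
    have : (p : ℝ) < 32 * (N * M) := by exact_mod_cast hpM
    linarith
  have h2 : min (a * (M : ℝ) ^ 2) (p * M) ≤ 32 * (M : ℝ) ^ 2 * min a N := by
    have h3 : (p : ℝ) * M ≤ 32 * (M : ℝ) ^ 2 * N := by
      rw [div_le_iff₀ hMR] at h1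
      nlinarith
    rcases le_total a N with h | h
    · rw [min_eq_left h]
      refine (min_le_left _ _).trans ?_
      have : 0 ≤ a * (M : ℝ) ^ 2 := by positivity
      linarith
    · rw [min_eq_right h]
      exact (min_le_right _ _).trans h3
  unfold EE
  have h4 : 4 * (T : ℝ) * p / (M : ℝ) ^ 3 * (Y0 * (a ^ 2 * min (a * (M : ℝ) ^ 2) (p * M)))
      ≤ 4096 * (T * N * Y0 * a ^ 2 * min a N) := by
    calc 4 * (T : ℝ) * p / (M : ℝ) ^ 3 * (Y0 * (a ^ 2 * min (a * (M : ℝ) ^ 2) (p * M)))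
        ≤ 4 * (T : ℝ) * p / (M : ℝ) ^ 3 * (Y0 * (a ^ 2 * (32 * (M : ℝ) ^ 2 * min a N))) := by
          refine mul_le_mul_of_nonneg_left ?_ (by positivity)
          refine mul_le_mul_of_nonneg_left ?_ (by positivity)
          exact mul_le_mul_of_nonneg_left h2 (by positivity)
      _ = (p : ℝ) / M * (128 * T * Y0 * a ^ 2 * min a N) := by
          field_simp
          ring
      _ ≤ 32 * N * (128 * T * Y0 * a ^ 2 * min a N) :=
          mul_le_mul_of_nonneg_right h1 (by positivity)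
      _ = _ := by ring
  have h5 : 4 * (p : ℝ) * Y0 / (M : ℝ) ^ 2 * (Y0 * a ^ 3)
      ≤ 4096 * ((N : ℝ) ^ 2 * Y0 ^ 2 * a ^ 3 / p) := by
    have h6 : (p : ℝ) ^ 2 / (M : ℝ) ^ 2 ≤ 1024 * (N : ℝ) ^ 2 := by
      have h7 : ((p : ℝ) / (M : ℝ)) ^ 2 ≤ (32 * (N : ℝ)) ^ 2 :=
        pow_le_pow_left₀ (by positivity) h1 2
      rw [div_pow] at h7
      refine h7.trans (le_of_eq ?_)
      ring
    calc 4 * (p : ℝ) * Y0 / (M : ℝ) ^ 2 * (Y0 * a ^ 3)
        = (p : ℝ) ^ 2 / (M : ℝ) ^ 2 * (4 * Y0 ^ 2 * a ^ 3 / p) := by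
          field_simp
      _ ≤ 1024 * (N : ℝ) ^ 2 * (4 * Y0 ^ 2 * a ^ 3 / p) :=
          mul_le_mul_of_nonneg_right h6 (by positivity)
      _ = _ := by ring
  linarith

/-- numerical bound for the bad pairs -/
theorem numR (p κ ε L T Y0 n a R C C3 : ℝ) (hp1 : 1 ≤ p) (hκε : 8 * κ ≤ ε) (hε : 0 < ε)
    (hLR : 1 ≤ L) (hLle : L ≤ p ^ κ) (hT1 : 1 ≤ T) (hTle : T ≤ (C + 1) * p ^ κ) (hC0 : 0 < C)
    (hC30 : 0 ≤ C3) (hY : 0 < Y0) (hn : 0 < n) (ha : 0 < a) (hnY : n ≤ 2 * L * Y0)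
    (hA : p ^ ε ≤ a) (hAN : p ^ (1 + ε) ≤ a * n * max a n) (hR0 : 0 ≤ R)
    (h1 : (Y0 * R) ^ 2 ≤ (C3 * (L * p)) *
        (4096 * (T * n * Y0 * a ^ 2 * min a n + n ^ 2 * Y0 ^ 2 * a ^ 3 / p))) :
    R ≤ (12288 * C3 * (C + 1) + 1) * p ^ (-(ε / 4)) * (n * a ^ 2) := by
  have hp0 : 0 < p := by linarith
  have hL0 : 0 < L := by linarith
  have hmin0 : 0 < min a n := lt_min ha hn
  have hmm : p * min a n ≤ a ^ 2 * n ^ 2 * p ^ (-ε) := by
    have h1 : p ^ (1 + ε) * min a n ≤ a ^ 2 * n ^ 2 := by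
      calc p ^ (1 + ε) * min a n ≤ (a * n * max a n) * min a n :=
            mul_le_mul_of_nonneg_right hAN hmin0.le
        _ = a * n * (min a n * max a n) := by ring
        _ = a ^ 2 * n ^ 2 := by rw [min_mul_max]; ring
    have h2 : p ^ (1 + ε) * p ^ (-ε) = p := by
      rw [← Real.rpow_add hp0]
      norm_num
    calc p * min a n = (p ^ (1 + ε) * p ^ (-ε)) * min a n := by rw [h2]
      _ = (p ^ (1 + ε) * min a n) * p ^ (-ε) := by ring
      _ ≤ _ := mul_le_mul_of_nonneg_right h1 (by positivity)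
  have ha3 : a ^ 3 ≤ a ^ 4 * p ^ (-ε) := by
    have h1 : 1 ≤ a * p ^ (-ε) := by
      calc (1 : ℝ) = p ^ ε * p ^ (-ε) := by
            rw [← Real.rpow_add hp0]
            norm_num
        _ ≤ _ := mul_le_mul_of_nonneg_right hA (by positivity)
    calc a ^ 3 = a ^ 3 * 1 := (mul_one _).symm
      _ ≤ a ^ 3 * (a * p ^ (-ε)) := mul_le_mul_of_nonneg_left h1 (by positivity)
      _ = _ := by ring
  have h3 : L * p * (T * n * Y0 * a ^ 2 * min a n)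
      ≤ Y0 ^ 2 * (2 * L ^ 2 * T * (a ^ 4 * n ^ 2 * p ^ (-ε))) := by
    calc L * p * (T * n * Y0 * a ^ 2 * min a n)
        = L * T * Y0 * a ^ 2 * n * (p * min a n) := by ring
      _ ≤ L * T * Y0 * a ^ 2 * (2 * L * Y0) * (a ^ 2 * n ^ 2 * p ^ (-ε)) := by
          refine mul_le_mul ?_ hmm (by positivity) (by positivity)
          exact mul_le_mul_of_nonneg_left hnY (by positivity)
      _ = _ := by ring
  have h4 : L * p * (n ^ 2 * Y0 ^ 2 * a ^ 3 / p)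
      ≤ Y0 ^ 2 * (L ^ 2 * T * (a ^ 4 * n ^ 2 * p ^ (-ε))) := by
    calc L * p * (n ^ 2 * Y0 ^ 2 * a ^ 3 / p) = L * 1 * (n ^ 2 * Y0 ^ 2 * a ^ 3) := by
          field_simp
      _ ≤ L * (L * T) * (n ^ 2 * Y0 ^ 2 * (a ^ 4 * p ^ (-ε))) := by
          refine mul_le_mul ?_ (mul_le_mul_of_nonneg_left ha3 (by positivity)) (by positivity)
            (by positivity)
          refine mul_le_mul_of_nonneg_left ?_ hL0.le
          exact one_le_mul_of_one_le_of_one_le hLR hT1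
      _ = _ := by ring
  have h5 : L ^ 2 * T ≤ (C + 1) * p ^ (3 * κ) := by
    calc L ^ 2 * T ≤ (p ^ κ) ^ 2 * ((C + 1) * p ^ κ) :=
          mul_le_mul (pow_le_pow_left₀ hL0.le hLle 2) hTle (by positivity) (by positivity)
      _ = (C + 1) * p ^ (3 * κ) := by
          have : p ^ (3 * κ) = p ^ κ * p ^ κ * p ^ κ := by
            rw [← Real.rpow_add hp0, ← Real.rpow_add hp0]
            congr 1
            ring
          rw [this]
          ring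
  have hR2 : R ^ 2 ≤ (12288 * C3 * (C + 1)) * p ^ (3 * κ - ε) * (n ^ 2 * a ^ 4) := by
    have h2 : (C3 * (L * p)) *
        (4096 * (T * n * Y0 * a ^ 2 * min a n + n ^ 2 * Y0 ^ 2 * a ^ 3 / p))
        ≤ Y0 ^ 2 * ((12288 * C3 * (C + 1)) * p ^ (3 * κ - ε) * (n ^ 2 * a ^ 4)) := by
      calc (C3 * (L * p)) *
          (4096 * (T * n * Y0 * a ^ 2 * min a n + n ^ 2 * Y0 ^ 2 * a ^ 3 / p))
          = 4096 * C3 * (L * p * (T * n * Y0 * a ^ 2 * min a n)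
            + L * p * (n ^ 2 * Y0 ^ 2 * a ^ 3 / p)) := by ring
        _ ≤ 4096 * C3 * (Y0 ^ 2 * (2 * L ^ 2 * T * (a ^ 4 * n ^ 2 * p ^ (-ε)))
            + Y0 ^ 2 * (L ^ 2 * T * (a ^ 4 * n ^ 2 * p ^ (-ε)))) :=
            mul_le_mul_of_nonneg_left (add_le_add h3 h4) (by positivity)
        _ = 12288 * C3 * (Y0 ^ 2 * ((L ^ 2 * T) * (a ^ 4 * n ^ 2 * p ^ (-ε)))) := by
            ring
        _ ≤ 12288 * C3 * (Y0 ^ 2 * (((C + 1) * p ^ (3 * κ))
            * (a ^ 4 * n ^ 2 * p ^ (-ε)))) := by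
            refine mul_le_mul_of_nonneg_left ?_ (by positivity)
            refine mul_le_mul_of_nonneg_left ?_ (by positivity)
            exact mul_le_mul_of_nonneg_right h5 (by positivity)
        _ = _ := by
            rw [sub_eq_add_neg, Real.rpow_add hp0]
            ring
    have h6 := h1.trans h2
    rw [mul_pow] at h6
    exact le_of_mul_le_mul_left h6 (by positivity)
  refine le_of_sq_le_sq ?_ (by positivity)
  refine hR2.trans ?_
  have h7 : p ^ (3 * κ - ε) ≤ (p ^ (-(ε / 4))) ^ 2 := by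
    rw [← Real.rpow_natCast, ← Real.rpow_mul hp0.le]
    apply Real.rpow_le_rpow_of_exponent_le hp1
    push_cast
    linarith
  obtain ⟨C4, hC4⟩ : ∃ C4 : ℝ, C4 = 12288 * C3 * (C + 1) := ⟨_, rfl⟩
  have hC40 : 0 ≤ C4 := by rw [hC4]; positivity
  rw [← hC4]
  have h2 : C4 ≤ (C4 + 1) ^ 2 := by
    have : 0 ≤ C4 ^ 2 := sq_nonneg _
    have h3 : (C4 + 1) ^ 2 = C4 ^ 2 + 2 * C4 + 1 := by ring
    linarith
  calc C4 * p ^ (3 * κ - ε) * (n ^ 2 * a ^ 4)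
      ≤ (C4 + 1) ^ 2 * (p ^ (-(ε / 4))) ^ 2 * (n ^ 2 * a ^ 4) := by
        refine mul_le_mul_of_nonneg_right ?_ (by positivity)
        exact mul_le_mul h2 h7 (by positivity) (by positivity)
    _ = _ := by ring

/-- the final numerical step -/
theorem numF (p κ ε L n a R C4 S : ℝ) (k : ℕ) (hk1 : 1 ≤ k) (hp1 : 1 ≤ p) (hκ0 : 0 < κ)
    (hκε : 8 * κ ≤ ε) (hL0 : 0 < L) (hLbig : p ^ (κ / 2) ≤ L) (hn1 : 1 ≤ n) (ha : 0 < a)
    (hC40 : 0 ≤ C4) (hR : R ≤ (C4 + 1) * p ^ (-(ε / 4)) * (n * a ^ 2)) (hR0 : 0 ≤ R)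
    (hP5 : 5 * (5 + (C4 + 1)) < p ^ (κ / (8 * k)))
    (hS : S ^ 2 ≤ (4 * n + 1) * (L ^ (1 - 1 / (2 * (k : ℝ))) / L * a ^ 2 * (4 * n + 1) + R)) :
    S ≤ p ^ (-(κ / (16 * k))) * (a * n) := by
  have hp0 : 0 < p := by linarith
  have hkR : (1 : ℝ) ≤ k := by exact_mod_cast hk1
  obtain ⟨W, hW⟩ : ∃ W : ℝ, W = p ^ (-(κ / (4 * k))) := ⟨_, rfl⟩
  have hW0 : 0 < W := by rw [hW]; positivity
  have t1 : L ^ (1 - 1 / (2 * (k : ℝ))) / L ≤ W := by
    have e0 : L ^ (1 - 1 / (2 * (k : ℝ))) / L = L ^ (-(1 / (2 * (k : ℝ)))) := by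
      rw [sub_eq_add_neg, Real.rpow_add hL0, Real.rpow_one]
      field_simp
    have e1 : W = (p ^ (κ / 2)) ^ (-(1 / (2 * (k : ℝ)))) := by
      rw [hW, ← Real.rpow_mul hp0.le]
      congr 1
      field_simp
      ring
    rw [e0, e1]
    apply Real.rpow_le_rpow_of_nonpos (by positivity) hLbig
    have : 0 < 1 / (2 * (k : ℝ)) := by positivity
    linarith
  have hkk : κ / (4 * k) ≤ κ / 4 := by
    apply div_le_div_of_nonneg_left hκ0.le (by norm_num)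
    linarith
  have t2 : p ^ (-(ε / 4)) ≤ W := by
    rw [hW]
    apply Real.rpow_le_rpow_of_exponent_le hp1
    linarith
  have hfin : S ^ 2 ≤ 5 * (5 + (C4 + 1)) * W * (a * n) ^ 2 := by
    refine hS.trans ?_
    have h5n : 4 * n + 1 ≤ 5 * n := by linarith
    have hL1 : 0 ≤ L ^ (1 - 1 / (2 * (k : ℝ))) / L := by positivity
    calc (4 * n + 1) * (L ^ (1 - 1 / (2 * (k : ℝ))) / L * a ^ 2 * (4 * n + 1) + R)
        ≤ (5 * n) * (W * a ^ 2 * (5 * n) + (C4 + 1) * W * (n * a ^ 2)) := by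
          refine mul_le_mul h5n ?_ (by positivity) (by positivity)
          refine add_le_add ?_ ?_
          · exact mul_le_mul (mul_le_mul_of_nonneg_right t1 (by positivity)) h5n (by positivity)
              (by positivity)
          · refine hR.trans (mul_le_mul_of_nonneg_right ?_ (by positivity))
            exact mul_le_mul_of_nonneg_left t2 (by positivity)
      _ = _ := by ring
  have hW2 : 5 * (5 + (C4 + 1)) * W ≤ (p ^ (-(κ / (16 * k)))) ^ 2 := by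
    have e5 : (p ^ (-(κ / (16 * k)))) ^ 2 = p ^ (κ / (8 * k)) * W := by
      rw [hW, ← Real.rpow_add hp0, ← Real.rpow_natCast, ← Real.rpow_mul hp0.le]
      congr 1
      push_cast
      field_simp
      ring
    rw [e5]
    exact mul_le_mul_of_nonneg_right hP5.le hW0.le
  refine le_of_sq_le_sq ?_ (by positivity)
  calc _ ≤ 5 * (5 + (C4 + 1)) * W * (a * n) ^ 2 := hfin
    _ ≤ (p ^ (-(κ / (16 * k)))) ^ 2 * (a * n) ^ 2 :=
        mul_le_mul_of_nonneg_right hW2 (by positivity)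
    _ = _ := by ring

/-- power saving over one interval -/
theorem line_pow (ε : ℝ) (hε : 0 < ε) :
    ∃ η : ℝ, 0 < η ∧ ∃ P : ℕ, ∀ (p : ℕ) [Fact p.Prime], P ≤ p →
      ∀ (χ : DirichletCharacter ℂ p), χ ≠ 1 → ∀ N : ℕ, (p : ℝ) ^ ε ≤ N → 16 * N ≤ p →
        ∀ (A : Finset (ZMod p)) (α : ZMod p → ℂ), (∀ a, ‖α a‖ ≤ 1) → (p : ℝ) ^ ε ≤ A.card →
          (p : ℝ) ^ (1 + ε) ≤ A.card * N * max (A.card : ℝ) N →
          ∑ x ∈ Icc (-(N : ℤ)) N, ‖∑ a ∈ A, α a * χ (a + (x : ZMod p))‖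
            ≤ (p : ℝ) ^ (-η) * (A.card * N) := by
  classical
  obtain ⟨κ, hκdef⟩ : ∃ κ : ℝ, κ = min ε 1 / 8 := ⟨_, rfl⟩
  have hmin0 : 0 < min ε 1 := lt_min hε one_pos
  have hκ0 : 0 < κ := by rw [hκdef]; positivity
  have hκε : 8 * κ ≤ ε := by
    have := min_le_left ε 1
    rw [hκdef]; linarith
  have hκ1 : 8 * κ ≤ 1 := by
    have := min_le_right ε 1
    rw [hκdef]; linarith
  obtain ⟨k, hk⟩ := exists_nat_ge (2 / κ)
  have hκk : 2 ≤ κ * k := by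
    rw [div_le_iff₀ hκ0] at hk
    linarith
  have hk1 : 1 ≤ k := by
    rcases Nat.eq_zero_or_pos k with h | h
    · subst h
      simp at hκk
      linarith
    · exact h
  have hkR : (1 : ℝ) ≤ k := by exact_mod_cast hk1
  obtain ⟨C, hC0, hC⟩ := Pool.Agent.H510R2.divisor_bound κ hκ0
  obtain ⟨C3, hC3⟩ : ∃ C3 : ℝ, C3 = (k : ℝ) ^ (2 * k) + (2 * k) ^ 2 := ⟨_, rfl⟩
  have hC30 : 0 ≤ C3 := by rw [hC3]; positivity
  have hC40 : 0 ≤ 12288 * C3 * (C + 1) := by positivity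
  obtain ⟨P4, hP4⟩ := large_rpow (κ / 2) 2 (by positivity)
  obtain ⟨P5, hP5⟩ := large_rpow (κ / (8 * k)) (5 * (5 + (12288 * C3 * (C + 1) + 1))) (by positivity)
  refine ⟨κ / (16 * k), by positivity, P4 + P5, ?_⟩
  intro p _ hp χ hχ N hN hN16 A α hα hA hAN
  have hP4' := hP4 p (by omega)
  have hP5' := hP5 p (by omega)
  have hpn : 2 ≤ p := (Fact.out : p.Prime).two_le
  have hp1 : (1 : ℝ) ≤ p := by exact_mod_cast (by omega : 1 ≤ p)
  have hp0 : (0 : ℝ) < p := by linarith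
  obtain ⟨L, hLdef⟩ : ∃ L : ℕ, L = ⌊(p : ℝ) ^ κ⌋₊ := ⟨_, rfl⟩
  have hLle : (L : ℝ) ≤ (p : ℝ) ^ κ := by rw [hLdef]; exact Nat.floor_le (by positivity)
  have hLlt : (p : ℝ) ^ κ < L + 1 := by rw [hLdef]; exact Nat.lt_floor_add_one _
  have hpk2 : 2 < (p : ℝ) ^ κ := by
    refine lt_of_lt_of_le hP4' ?_
    exact Real.rpow_le_rpow_of_exponent_le hp1 (by linarith)
  have hL1 : 1 ≤ L := by
    have h1 : (1 : ℝ) < L := by linarith
    exact_mod_cast h1.le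
  have hLR : (1 : ℝ) ≤ L := by exact_mod_cast hL1
  have hL0 : (0 : ℝ) < L := by linarith
  have hLbig : (p : ℝ) ^ (κ / 2) ≤ L := by
    have e1 : (p : ℝ) ^ κ = (p : ℝ) ^ (κ / 2) * (p : ℝ) ^ (κ / 2) := by
      rw [← Real.rpow_add hp0]; congr 1; ring
    rw [e1] at hLlt
    nlinarith [Real.rpow_pos_of_pos hp0 (κ / 2)]
  have hLp : L ≤ p := by
    have h1 : (L : ℝ) ≤ p := by
      calc (L : ℝ) ≤ (p : ℝ) ^ κ := hLle
        _ ≤ (p : ℝ) ^ (1 : ℝ) := Real.rpow_le_rpow_of_exponent_le hp1 (by linarith)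
        _ = p := Real.rpow_one _
    exact_mod_cast h1
  have hLk : p ≤ L ^ k := by
    have h2 : (p : ℝ) ≤ (L : ℝ) ^ k := by
      calc (p : ℝ) = (p : ℝ) ^ (1 : ℝ) := (Real.rpow_one _).symm
        _ ≤ (p : ℝ) ^ (κ / 2 * k) := Real.rpow_le_rpow_of_exponent_le hp1 (by linarith)
        _ = ((p : ℝ) ^ (κ / 2)) ^ k := by rw [Real.rpow_mul hp0.le, Real.rpow_natCast]
        _ ≤ (L : ℝ) ^ k := pow_le_pow_left₀ (by positivity) hLbig k
    exact_mod_cast h2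
  have hLN : L ≤ N := by
    have h1 : (L : ℝ) ≤ N := by
      calc (L : ℝ) ≤ (p : ℝ) ^ κ := hLle
        _ ≤ (p : ℝ) ^ ε := Real.rpow_le_rpow_of_exponent_le hp1 (by linarith)
        _ ≤ N := hN
    exact_mod_cast h1
  have hN1 : 1 ≤ N := hL1.trans hLN
  have hNR : (1 : ℝ) ≤ N := by exact_mod_cast hN1
  have hN0 : (0 : ℝ) < N := by linarith
  -- the parameters
  obtain ⟨Y0, hY0def⟩ : ∃ Y0 : ℕ, Y0 = N / L := ⟨_, rfl⟩
  have hY1 : 1 ≤ Y0 := by
    rw [hY0def, Nat.le_div_iff_mul_le hL1]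
    omega
  have hLY : L * Y0 ≤ N := by rw [hY0def]; exact Nat.mul_div_le N L
  have hNY : N < 2 * L * Y0 := by
    have h1 : N < L * (Y0 + 1) := by
      rw [hY0def]
      exact Nat.lt_mul_div_succ N hL1
    have h2 : L * (Y0 + 1) ≤ L * (2 * Y0) := Nat.mul_le_mul_left _ (by omega)
    have h3 : L * (2 * Y0) = 2 * L * Y0 := by ring
    omega
  obtain ⟨M, hMdef⟩ : ∃ M : ℕ, M = p / (16 * N) := ⟨_, rfl⟩
  have hM1 : 1 ≤ M := by
    rw [hMdef, Nat.le_div_iff_mul_le (by omega)]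
    omega
  have hMN : 16 * N * M ≤ p := by rw [hMdef]; exact Nat.mul_div_le p (16 * N)
  have hpM : p < 32 * (N * M) := by
    have h1 : p < 16 * N * (M + 1) := by
      rw [hMdef]
      exact Nat.lt_mul_div_succ p (by omega)
    have h2 : 16 * N * (M + 1) ≤ 16 * N * (2 * M) := Nat.mul_le_mul_left _ (by omega)
    have h3 : 16 * N * (2 * M) = 32 * (N * M) := by ring
    omega
  have hYN : Y0 ≤ N := by
    have : 1 * Y0 ≤ L * Y0 := Nat.mul_le_mul_right _ hL1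
    omega
  have hMp : M ≤ p := by
    have : 1 * M ≤ 16 * N * M := Nat.mul_le_mul_right _ (by omega)
    omega
  have hYp : Y0 < p := by omega
  have hYM16 : 16 * (Y0 * M) ≤ p := by
    have h1 : Y0 * M ≤ N * M := Nat.mul_le_mul_right _ hYN
    have h2 : 16 * N * M = 16 * (N * M) := by ring
    omega
  have hYM0 : 1 ≤ Y0 * M := Nat.mul_pos hY1 hM1
  have hYM : 2 * (Y0 * M) < p := by omega
  have h8 : 8 * (M * (2 * N)) ≤ p := by
    have : 8 * (M * (2 * N)) = 16 * N * M := by ring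
    omega
  obtain ⟨T, hTdef⟩ : ∃ T : ℕ, T = ⌊C * (p : ℝ) ^ κ⌋₊ + 1 := ⟨_, rfl⟩
  have hT1 : (1 : ℝ) ≤ T := by
    rw [hTdef]
    push_cast
    have : (0 : ℝ) ≤ (⌊C * (p : ℝ) ^ κ⌋₊ : ℝ) := Nat.cast_nonneg _
    linarith
  have hTle : (T : ℝ) ≤ (C + 1) * (p : ℝ) ^ κ := by
    rw [hTdef]
    push_cast
    have h1 : (⌊C * (p : ℝ) ^ κ⌋₊ : ℝ) ≤ C * (p : ℝ) ^ κ := Nat.floor_le (by positivity)
    have h2 : (1 : ℝ) ≤ (p : ℝ) ^ κ := by linarith
    rw [add_mul, one_mul]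
    linarith
  have hT : ∀ m : ℕ, 1 ≤ m → m ≤ Y0 * M → m.divisors.card ≤ T := by
    intro m hm1 hm2
    have h1 := hC m hm1
    have h2 : (m : ℝ) ≤ p := by
      have : m ≤ p := by omega
      exact_mod_cast this
    have h3 : (m.divisors.card : ℝ) ≤ C * (p : ℝ) ^ κ :=
      h1.trans (mul_le_mul_of_nonneg_left (Real.rpow_le_rpow (Nat.cast_nonneg _) h2 hκ0.le) hC0.le)
    have h4 := Nat.le_floor h3
    omega
  obtain ⟨y, hy1, hyY, hyR⟩ := exists_shift (p := p) Y0 M T (2 * N) hY1 hM1 hMp hYp hYM h8 hT A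
    (Bad2 L χ ((L : ℝ) ^ (1 - 1 / (2 * (k : ℝ)))))
  have hy0 : (y : ZMod p) ≠ 0 := by
    intro h
    rw [ZMod.natCast_eq_zero_iff] at h
    have := Nat.le_of_dvd (by omega) h
    omega
  have hmain := line_bound (p := p) N L hL1 y hy0 ((Nat.mul_le_mul_left _ hyY).trans hLY) χ
    ((L : ℝ) ^ (1 - 1 / (2 * (k : ℝ)))) (by positivity) A α hα
  have hR0 : 0 ≤ RR (2 * N) A (Bad2 L χ ((L : ℝ) ^ (1 - 1 / (2 * (k : ℝ))))) (y : ZMod p) := by
    unfold RR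
    exact Finset.sum_nonneg fun _ _ => Finset.sum_nonneg fun _ _ => Nat.cast_nonneg _
  generalize RR (2 * N) A (Bad2 L χ ((L : ℝ) ^ (1 - 1 / (2 * (k : ℝ))))) (y : ZMod p) = R
    at hmain hyR hR0
  have hZ := bad2_small L hLp hL1 k hk1 hLk χ hχ
  rw [← hC3] at hZ
  have ha0 : (0 : ℝ) < A.card := lt_of_lt_of_le (by positivity) hA
  have hEE := EE_le p N M Y0 T (by omega) hN1 hM1 hpM A.card ha0.le
  have hEE0 : 0 ≤ EE p Y0 M T A.card := by unfold EE; positivity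
  have hYR : (0 : ℝ) < Y0 := by exact_mod_cast hY1
  have hnY : (N : ℝ) ≤ 2 * L * Y0 := by exact_mod_cast hNY.le
  have h1 := hyR.trans (mul_le_mul hZ hEE hEE0 (by positivity))
  have hRle := numR p κ ε L T Y0 N A.card R C C3 hp1 hκε hε hLR hLle hT1 hTle hC0 hC30 hYR hN0 ha0
    hnY hA hAN hR0 h1
  exact numF p κ ε L N A.card R (12288 * C3 * (C + 1)) _ k hk1 hp1 hκ0 hκε hL0 hLbig hNR ha0 hC40
    hRle hR0 hP5' hmain

end Pool.Agent.W27.TQ
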