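import Mathlib

/-! A large sieve inequality for dilations. -/

set_option autoImplicit false

namespace Pool.Agent.W27.TQ

open Finset

variable {p : ℕ} [Fact p.Prime]

/-- the standard additive character -/
noncomputable def ee (x : ZMod p) : ℂ := ZMod.stdAddChar x

theorem ee_norm (x : ZMod p) : ‖ee x‖ = 1 := AddChar.norm_apply _ _

theorem ee_conj (x : ZMod p) : (starRingEnd ℂ) (ee x) = ee (-x) :=
  (AddChar.map_neg_eq_conj _ _).symm

theorem ee_add (x y : ZMod p) : ee (x + y) = ee x * ee y := AddChar.map_add_eq_mul _ _ _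

theorem ee_sum (b : ZMod p) : ∑ x : ZMod p, ee (b * x) = if b = 0 then (p : ℂ) else 0 := by
  have h := AddChar.sum_mulShift b (ZMod.isPrimitive_stdAddChar p)
  rw [ZMod.card] at h
  have e : ∑ x : ZMod p, ee (b * x) = ∑ x : ZMod p, ZMod.stdAddChar (x * b) := by
    refine Finset.sum_congr rfl fun x _ => ?_
    unfold ee
    rw [mul_comm]
  rw [e, h]
  split_ifs <;> simp

/-- expansion of the mean square of an exponential sum -/
theorem mean_square {κ : Type*} [DecidableEq κ] (s : Finset κ) (C : κ → ℂ) (m : κ → ZMod p) :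
    ((∑ u : ZMod p, ‖∑ i ∈ s, C i * ee (m i * u)‖ ^ 2 : ℝ) : ℂ)
      = p * ∑ i ∈ s, ∑ j ∈ s, if m i = m j then C i * (starRingEnd ℂ) (C j) else 0 := by
  push_cast
  have e1 : ∀ u : ZMod p, ((‖∑ i ∈ s, C i * ee (m i * u)‖ : ℝ) : ℂ) ^ 2
      = ∑ i ∈ s, ∑ j ∈ s, C i * (starRingEnd ℂ) (C j) * ee ((m i - m j) * u) := by
    intro u
    rw [← Complex.mul_conj', map_sum, Finset.sum_mul_sum]
    refine Finset.sum_congr rfl fun i _ => Finset.sum_congr rfl fun j _ => ?_
    rw [map_mul, ee_conj, sub_mul, sub_eq_add_neg, ee_add]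
    ring
  simp only [e1]
  rw [Finset.sum_comm, Finset.mul_sum]
  refine Finset.sum_congr rfl fun i _ => ?_
  rw [Finset.sum_comm, Finset.mul_sum]
  refine Finset.sum_congr rfl fun j _ => ?_
  rw [← Finset.mul_sum, ee_sum]
  by_cases h : m i = m j
  · rw [if_pos (sub_eq_zero.2 h), if_pos h]
    ring
  · rw [if_neg (sub_ne_zero.2 h), if_neg h]
    ring

/-- the large sieve with multiplicities -/
theorem mean_square_le {κ : Type*} [DecidableEq κ] (s : Finset κ) (C : κ → ℂ) (m : κ → ZMod p) :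
    ∑ u : ZMod p, ‖∑ i ∈ s, C i * ee (m i * u)‖ ^ 2
      ≤ p * ∑ i ∈ s, ((s.filter (fun j => m j = m i)).card : ℝ) * ‖C i‖ ^ 2 := by
  have h := mean_square s C m
  have h0 : 0 ≤ ∑ u : ZMod p, ‖∑ i ∈ s, C i * ee (m i * u)‖ ^ 2 :=
    Finset.sum_nonneg fun _ _ => by positivity
  have h1 : ∑ u : ZMod p, ‖∑ i ∈ s, C i * ee (m i * u)‖ ^ 2
      = ‖(p : ℂ) * ∑ i ∈ s, ∑ j ∈ s, if m i = m j then C i * (starRingEnd ℂ) (C j) else 0‖ := by
    rw [← h, Complex.norm_real, Real.norm_eq_abs, abs_of_nonneg h0]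
  rw [h1, norm_mul, Complex.norm_natCast]
  refine mul_le_mul_of_nonneg_left ?_ (Nat.cast_nonneg _)
  refine (norm_sum_le _ _).trans ?_
  refine (Finset.sum_le_sum fun i _ => norm_sum_le _ _).trans ?_
  have h2 : ∀ i j, ‖(if m i = m j then C i * (starRingEnd ℂ) (C j) else 0 : ℂ)‖
      ≤ (if m i = m j then ‖C i‖ ^ 2 / 2 else 0) + (if m j = m i then ‖C j‖ ^ 2 / 2 else 0) := by
    intro i j
    by_cases hij : m i = m j
    · rw [if_pos hij, if_pos hij, if_pos hij.symm, norm_mul, RCLike.norm_conj]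
      nlinarith [sq_nonneg (‖C i‖ - ‖C j‖)]
    · rw [if_neg hij, if_neg hij, if_neg (fun h => hij h.symm)]
      simp
  refine (Finset.sum_le_sum fun i _ => Finset.sum_le_sum fun j _ => h2 i j).trans ?_
  simp only [Finset.sum_add_distrib]
  have h3 : ∑ i ∈ s, ∑ j ∈ s, (if m i = m j then ‖C i‖ ^ 2 / 2 else 0)
      = ∑ i ∈ s, ((s.filter (fun j => m j = m i)).card : ℝ) * ‖C i‖ ^ 2 / 2 := by
    refine Finset.sum_congr rfl fun i _ => ?_
    rw [← Finset.sum_filter, Finset.sum_const, nsmul_eq_mul]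
    have : s.filter (fun j => m i = m j) = s.filter (fun j => m j = m i) :=
      Finset.filter_congr fun j _ => ⟨fun h => h.symm, fun h => h.symm⟩
    rw [this]
    ring
  have h4 : ∑ i ∈ s, ∑ j ∈ s, (if m j = m i then ‖C j‖ ^ 2 / 2 else 0)
      = ∑ i ∈ s, ((s.filter (fun j => m j = m i)).card : ℝ) * ‖C i‖ ^ 2 / 2 := by
    rw [Finset.sum_comm, ← h3]
  rw [h3, h4, ← Finset.sum_add_distrib]
  apply le_of_eq
  refine Finset.sum_congr rfl fun i _ => ?_
  ring

/-- the index set of the dilated kernel -/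
def idx (Y0 M : ℕ) : Finset (ℕ × ℕ × ℕ) := (Icc 1 Y0) ×ˢ (range M) ×ˢ (range M)

/-- the frequency `y (j - j')` -/
def fr (i : ℕ × ℕ × ℕ) : ℤ := (i.1 : ℤ) * ((i.2.1 : ℤ) - (i.2.2 : ℤ))

theorem fr_abs {Y0 M : ℕ} {i : ℕ × ℕ × ℕ} (hi : i ∈ idx Y0 M) : |fr i| ≤ Y0 * M := by
  unfold idx at hi
  rw [Finset.mem_product, Finset.mem_product, Finset.mem_Icc, Finset.mem_range,
    Finset.mem_range] at hi
  unfold fr
  rw [abs_mul, abs_of_nonneg (by positivity : (0 : ℤ) ≤ (i.1 : ℤ))]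
  refine mul_le_mul (by exact_mod_cast hi.1.2) ?_ (abs_nonneg _) (by positivity)
  rw [abs_le]
  have h1 := hi.2.1
  have h2 := hi.2.2
  constructor <;> omega

theorem fr_inj {Y0 M : ℕ} (hYM : 2 * (Y0 * M) < p) {i j : ℕ × ℕ × ℕ} (hi : i ∈ idx Y0 M)
    (hj : j ∈ idx Y0 M) (h : ((fr i : ℤ) : ZMod p) = ((fr j : ℤ) : ZMod p)) : fr i = fr j := by
  have h1 : ((fr i - fr j : ℤ) : ZMod p) = 0 := by
    push_cast
    rw [h, sub_self]
  rw [ZMod.intCast_zmod_eq_zero_iff_dvd] at h1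
  have h2 : |fr i - fr j| < (p : ℤ) := by
    calc |fr i - fr j| ≤ |fr i| + |fr j| := abs_sub _ _
      _ ≤ Y0 * M + Y0 * M := add_le_add (fr_abs hi) (fr_abs hj)
      _ = ((2 * (Y0 * M) : ℕ) : ℤ) := by push_cast; ring
      _ < p := by exact_mod_cast hYM
  have h3 := Int.eq_zero_of_abs_lt_dvd h1 h2
  omega

/-- multiplicity of a nonzero frequency -/
theorem mult_ne {Y0 M : ℕ} (hYM : 2 * (Y0 * M) < p) (T : ℕ)
    (hT : ∀ m : ℕ, 1 ≤ m → m ≤ Y0 * M → m.divisors.card ≤ T) {i : ℕ × ℕ × ℕ} (hi : i ∈ idx Y0 M)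
    (h0 : fr i ≠ 0) :
    ((idx Y0 M).filter (fun j => ((fr j : ℤ) : ZMod p) = ((fr i : ℤ) : ZMod p))).card ≤ T * M := by
  classical
  have hm1 : 1 ≤ (fr i).natAbs := Nat.one_le_iff_ne_zero.2 (Int.natAbs_ne_zero.2 h0)
  have hm2 : (fr i).natAbs ≤ Y0 * M := by
    have := fr_abs hi
    rw [Int.abs_eq_natAbs] at this
    exact_mod_cast this
  have hTi := hT _ hm1 hm2
  have hinj : ((idx Y0 M).filter (fun j => ((fr j : ℤ) : ZMod p) = ((fr i : ℤ) : ZMod p))).card
      ≤ ((fr i).natAbs.divisors ×ˢ range M).card := by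
    refine Finset.card_le_card_of_injOn (fun j => (j.1, j.2.1)) ?_ ?_
    · intro j hj
      rw [Finset.mem_coe, Finset.mem_filter] at hj
      have he := fr_inj hYM hj.1 hi hj.2
      have hj' := hj.1
      unfold idx at hj'
      rw [Finset.mem_product, Finset.mem_product, Finset.mem_Icc, Finset.mem_range,
        Finset.mem_range] at hj'
      rw [Finset.mem_coe, Finset.mem_product, Finset.mem_range, Nat.mem_divisors]
      refine ⟨⟨?_, by omega⟩, hj'.2.1⟩
      have h2 : (j.1 : ℤ) ∣ fr i := by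
        rw [← he]
        exact Dvd.intro _ rfl
      exact Int.natCast_dvd.1 h2
    · intro j hj j' hj' hjj
      rw [Finset.mem_coe, Finset.mem_filter] at hj hj'
      have he := fr_inj hYM hj.1 hi hj.2
      have he' := fr_inj hYM hj'.1 hi hj'.2
      have h1 := hj.1
      unfold idx at h1
      rw [Finset.mem_product, Finset.mem_Icc] at h1
      simp only [Prod.mk.injEq] at hjj
      have hj0 : (j.1 : ℤ) ≠ 0 := by
        have := h1.1.1
        omega
      have h3 : fr j = fr j' := by rw [he, he']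
      unfold fr at h3
      rw [← hjj.1, ← hjj.2] at h3
      have h4 := mul_left_cancel₀ hj0 h3
      have h5 : j.2.2 = j'.2.2 := by omega
      exact Prod.ext hjj.1 (Prod.ext hjj.2 h5)
  refine hinj.trans ?_
  rw [Finset.card_product, Finset.card_range]
  exact Nat.mul_le_mul_right _ hTi

/-- multiplicity of the frequency zero -/
theorem mult_zero {Y0 M : ℕ} (hYM : 2 * (Y0 * M) < p) {i : ℕ × ℕ × ℕ} (hi : i ∈ idx Y0 M)
    (h0 : fr i = 0) :
    ((idx Y0 M).filter (fun j => ((fr j : ℤ) : ZMod p) = ((fr i : ℤ) : ZMod p))).card ≤ Y0 * M := by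
  classical
  have hinj : ((idx Y0 M).filter (fun j => ((fr j : ℤ) : ZMod p) = ((fr i : ℤ) : ZMod p))).card
      ≤ (Icc 1 Y0 ×ˢ range M).card := by
    refine Finset.card_le_card_of_injOn (fun j => (j.1, j.2.1)) ?_ ?_
    · intro j hj
      rw [Finset.mem_coe, Finset.mem_filter] at hj
      have hj' := hj.1
      unfold idx at hj'
      rw [Finset.mem_product, Finset.mem_product] at hj'
      rw [Finset.mem_coe, Finset.mem_product]
      exact ⟨hj'.1, hj'.2.1⟩
    · intro j hj j' hj' hjj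
      rw [Finset.mem_coe, Finset.mem_filter] at hj hj'
      have he := fr_inj hYM hj.1 hi hj.2
      have he' := fr_inj hYM hj'.1 hi hj'.2
      have h1 := hj.1
      unfold idx at h1
      rw [Finset.mem_product, Finset.mem_Icc] at h1
      simp only [Prod.mk.injEq] at hjj
      have hj0 : (j.1 : ℤ) ≠ 0 := by
        have := h1.1.1
        omega
      have h3 : fr j = fr j' := by rw [he, he']
      unfold fr at h3
      rw [← hjj.1, ← hjj.2] at h3
      have h4 := mul_left_cancel₀ hj0 h3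
      have h5 : j.2.2 = j'.2.2 := by omega
      exact Prod.ext hjj.1 (Prod.ext hjj.2 h5)
  refine hinj.trans ?_
  rw [Finset.card_product, Finset.card_range, Nat.card_Icc, Nat.add_sub_cancel]

end Pool.Agent.W27.TQ
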